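import Pool.Agent.H289R3.FQ.Tasks

set_option autoImplicit false
open Set Topology Filter
open scoped ComplexConjugate

/-!
The Hopf map `ℂ² → ℂ × ℝ`, lifts of maps `X → (ℂ × ℝ) ∖ 0` of a ball `X` through it, and a section
over the plane of the pull back to the two-dimensional torus by a map of degree one.
-/

namespace Pool.Agent.U891.FQ

open Pool.Agent.H289R3.FQ (T1)

/-! ### the character -/

/-- `exp(2πi t)` -/
noncomputable def E (t : ℝ) : ℂ := (Circle.exp (2 * Real.pi * t) : ℂ)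

theorem E_cont : Continuous E := by
  unfold E
  fun_prop

theorem E_add (s t : ℝ) : E (s + t) = E s * E t := by
  unfold E
  rw [mul_add, Circle.exp_add, Circle.coe_mul]

theorem E_zero : E 0 = 1 := by
  unfold E
  simp

theorem E_int (k : ℤ) : E k = 1 := by
  unfold E
  rw [mul_comm]
  have := Circle.exp_int_mul_two_pi k
  rw [this]
  rfl

theorem norm_E (t : ℝ) : ‖E t‖ = 1 := Circle.norm_coe _

theorem E_ne (t : ℝ) : E t ≠ 0 := Circle.coe_ne_zero _

theorem E_neg (t : ℝ) : E t * E (-t) = 1 := by rw [← E_add, add_neg_cancel, E_zero]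

/-- the angle of a complex number, in `ℝ/ℤ` -/
noncomputable def ang (z : ℂ) : T1 :=
  (AddCircle.homeomorphCircle (T := 1) one_ne_zero).symm (Circle.exp (Complex.arg z))

theorem ang_cont {z : ℂ} (hz : z ≠ 0) : ContinuousAt ang z := by
  apply (AddCircle.homeomorphCircle (T := 1) one_ne_zero).symm.continuous.continuousAt.comp
  refine (Topology.IsInducing.continuousAt_iff
    (⟨rfl⟩ : Topology.IsInducing (fun c : Circle => (c : ℂ)))).2 ?_
  have h1 : ContinuousAt (fun w : ℂ => w / ‖w‖) z := by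
    apply ContinuousAt.div continuousAt_id
    · exact (Complex.continuous_ofReal.comp continuous_norm).continuousAt
    · simpa using hz
  apply h1.congr
  filter_upwards [isOpen_ne.mem_nhds hz] with w hw
  have hw' : (‖w‖ : ℂ) ≠ 0 := by simpa using hw
  change w / ‖w‖ = (Circle.exp (Complex.arg w) : ℂ)
  rw [Circle.coe_exp, div_eq_iff hw', mul_comm]
  exact (Complex.norm_mul_exp_arg_mul_I w).symm

theorem exp_arg_eq {z : ℂ} (hz : z ≠ 0) : (Circle.exp (Complex.arg z) : ℂ) = z / ‖z‖ := by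
  have hw' : (‖z‖ : ℂ) ≠ 0 := by simpa using hz
  rw [Circle.coe_exp, eq_div_iff hw', mul_comm]
  exact Complex.norm_mul_exp_arg_mul_I z

theorem ang_E_mul {z : ℂ} (hz : z ≠ 0) (u : ℝ) : ang (E u * z) = ang z + (u : T1) := by
  unfold ang
  rw [Homeomorph.symm_apply_eq]
  rw [AddCircle.homeomorphCircle_apply, AddCircle.toCircle_add]
  have h1 : AddCircle.toCircle ((AddCircle.homeomorphCircle (T := 1) one_ne_zero).symm
      (Circle.exp (Complex.arg z))) = Circle.exp (Complex.arg z) := by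
    rw [← AddCircle.homeomorphCircle_apply (T := 1) one_ne_zero, Homeomorph.apply_symm_apply]
  rw [h1, AddCircle.toCircle_apply_mk]
  apply Circle.ext
  rw [exp_arg_eq (mul_ne_zero (E_ne u) hz), Circle.coe_mul, exp_arg_eq hz, norm_mul, norm_E,
    one_mul]
  unfold E
  rw [div_one]
  ring

/-! ### the section over the plane -/

/-- auxiliary -/
noncomputable def G (u t : ℝ) : ℂ × ℂ :=
  (E (-(t * u)) * ((1 - t : ℝ) + (t : ℝ) * E u), E (-(t * u)) * (t * (1 - t) : ℝ))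

/-- a nowhere vanishing map `ℝ² → ℂ²` which is invariant under `(1, 0)` and is multiplied by
`exp(2πi u)` under `(0, 1)` -/
noncomputable def ct (u v : ℝ) : ℂ × ℂ := (E (v * u) * (G u (Int.fract v)).1, E (v * u) * (G u (Int.fract v)).2)

theorem G_cont : Continuous (fun p : ℝ × ℝ => G p.1 p.2) := by
  unfold G
  have := E_cont
  fun_prop

theorem ct_cont : Continuous (fun p : ℝ × ℝ => ct p.1 p.2) := by
  have h1 : Continuous (fun p : ℝ × ℝ => G p.1 (Int.fract p.2)) := by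
    apply ContinuousOn.comp_fract' (f := G)
    · exact G_cont.continuousOn
    · intro s
      unfold G
      simp only [zero_mul, neg_zero, E_zero, one_mul, sub_zero, Complex.ofReal_one,
        Complex.ofReal_zero, add_zero, mul_one, sub_self, mul_zero, zero_add]
      rw [mul_comm (E (-s)), E_neg]
  have h2 : Continuous (fun p : ℝ × ℝ => E (p.2 * p.1)) := E_cont.comp (by fun_prop)
  unfold ct
  exact (h2.mul (continuous_fst.comp h1)).prodMk (h2.mul (continuous_snd.comp h1))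

theorem G_int (u t : ℝ) (k : ℤ) : G (u + k) t = (E (-(t * k)) * (G u t).1, E (-(t * k)) * (G u t).2) := by
  unfold G
  have e1 : E (u + k) = E u := by rw [E_add, E_int, mul_one]
  have e2 : E (-(t * (u + k))) = E (-(t * k)) * E (-(t * u)) := by
    rw [← E_add]; congr 1; ring
  rw [e1, e2, mul_assoc, mul_assoc]

theorem ct_int (u v : ℝ) (k l : ℤ) :
    ct (u + k) (v + l) = (E (l * u) * (ct u v).1, E (l * u) * (ct u v).2) := by
  unfold ct
  rw [Int.fract_add_intCast, G_int]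
  have e : E ((v + l) * (u + k)) * E (-(Int.fract v * k)) = E (l * u) * E (v * u) := by
    rw [← E_add, ← E_add]
    have : (v + l) * (u + k) + -(Int.fract v * k) = (l * u + v * u) + ((l * k + ⌊v⌋ * k : ℤ) : ℝ) := by
      have := Int.floor_add_fract v
      push_cast
      have hv : v = ⌊v⌋ + Int.fract v := this.symm
      linear_combination (k : ℝ) * hv
    rw [this, E_add, E_int, mul_one]
  rw [← mul_assoc, e, ← mul_assoc, e, mul_assoc, mul_assoc]

theorem ct_ne (u v : ℝ) : ct u v ≠ 0 := by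
  intro h
  have h1 : (G u (Int.fract v)).1 = 0 := by
    have := congrArg Prod.fst h
    exact (mul_eq_zero.1 this).resolve_left (E_ne _)
  have h2 : (G u (Int.fract v)).2 = 0 := by
    have := congrArg Prod.snd h
    exact (mul_eq_zero.1 this).resolve_left (E_ne _)
  set t := Int.fract v with ht
  have ht1 : t < 1 := Int.fract_lt_one v
  have h3 : t * (1 - t) = 0 := by
    have := (mul_eq_zero.1 h2).resolve_left (E_ne _)
    exact_mod_cast this
  have h4 : t = 0 := by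
    rcases mul_eq_zero.1 h3 with h | h
    · exact h
    · linarith
  have h5 := (mul_eq_zero.1 h1).resolve_left (E_ne _)
  rw [h4] at h5
  simp at h5

/-! ### the Hopf map -/

/-- the Hopf map -/
noncomputable def hopf (ξ : ℂ × ℂ) : ℂ × ℝ := (2 * ξ.1 * conj ξ.2, ‖ξ.1‖ ^ 2 - ‖ξ.2‖ ^ 2)

theorem hopf_cont : Continuous hopf := by
  unfold hopf
  fun_prop

/-- the Euclidean length of a vector in `ℂ × ℝ` -/
noncomputable def rad (v : ℂ × ℝ) : ℝ := Real.sqrt (‖v.1‖ ^ 2 + v.2 ^ 2)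

theorem rad_cont : Continuous rad := by
  unfold rad
  fun_prop

theorem rad_sq (v : ℂ × ℝ) : rad v ^ 2 = ‖v.1‖ ^ 2 + v.2 ^ 2 := Real.sq_sqrt (by positivity)

theorem rad_nonneg (v : ℂ × ℝ) : 0 ≤ rad v := Real.sqrt_nonneg _

theorem rad_pos {v : ℂ × ℝ} (hv : v ≠ 0) : 0 < rad v := by
  rcases (rad_nonneg v).eq_or_lt with h | h
  · exfalso
    apply hv
    have h1 := rad_sq v
    rw [← h] at h1
    have h2 : ‖v.1‖ ^ 2 = 0 := by nlinarith [sq_nonneg ‖v.1‖, sq_nonneg v.2]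
    have h3 : v.2 ^ 2 = 0 := by nlinarith [sq_nonneg ‖v.1‖, sq_nonneg v.2]
    apply Prod.ext
    · simpa using h2
    · simpa using h3
  · exact h

/-- `ℓ` is in the complex line which corresponds to `v` -/
def InLine (v : ℂ × ℝ) (ℓ : ℂ × ℂ) : Prop :=
  (v.2 : ℂ) * ℓ.1 + v.1 * ℓ.2 = rad v * ℓ.1 ∧ conj v.1 * ℓ.1 - v.2 * ℓ.2 = rad v * ℓ.2

/-- twice the radius times the projection to the line which corresponds to `v` -/
noncomputable def pr (v : ℂ × ℝ) (ℓ : ℂ × ℂ) : ℂ × ℂ :=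
  (rad v * ℓ.1 + ((v.2 : ℂ) * ℓ.1 + v.1 * ℓ.2), rad v * ℓ.2 + (conj v.1 * ℓ.1 - v.2 * ℓ.2))

theorem pr_cont : Continuous (fun p : (ℂ × ℝ) × (ℂ × ℂ) => pr p.1 p.2) := by
  unfold pr
  have := rad_cont
  fun_prop

theorem conj_mul_self_eq (z : ℂ) : conj z * z = ((‖z‖ ^ 2 : ℝ) : ℂ) := by
  rw [mul_comm, Complex.mul_conj, Complex.normSq_eq_norm_sq]

theorem inLine_pr (v : ℂ × ℝ) (ℓ : ℂ × ℂ) : InLine v (pr v ℓ) := by
  have h1 : ((rad v : ℂ)) ^ 2 = conj v.1 * v.1 + (v.2 : ℂ) ^ 2 := by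
    rw [conj_mul_self_eq]
    have := rad_sq v
    exact_mod_cast this
  constructor
  · simp only [pr]
    linear_combination (-ℓ.1) * h1
  · simp only [pr]
    linear_combination (-ℓ.2) * h1

theorem norm_sq_aux (z a b : ℂ) (h : ℝ) :
    ‖(h : ℂ) * a + z * b‖ ^ 2 + ‖conj z * a - h * b‖ ^ 2 =
      (‖z‖ ^ 2 + h ^ 2) * (‖a‖ ^ 2 + ‖b‖ ^ 2) := by
  simp only [← Complex.normSq_eq_norm_sq, Complex.normSq_apply]
  simp only [Complex.add_re, Complex.mul_re, Complex.ofReal_re, Complex.ofReal_im, Complex.add_im,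
    Complex.mul_im, Complex.sub_re, Complex.sub_im, Complex.conj_re, Complex.conj_im]
  ring

theorem pr_ne {v v' : ℂ × ℝ} {ℓ : ℂ × ℂ} (hℓ : ℓ ≠ 0) (h : InLine v ℓ)
    (hvv : ‖v.1 - v'.1‖ ^ 2 + (v.2 - v'.2) ^ 2 < rad v ^ 2) : pr v' ℓ ≠ 0 := by
  intro h0
  obtain ⟨h1, h2⟩ := h
  have h3 : (rad v' : ℂ) * ℓ.1 + ((v'.2 : ℂ) * ℓ.1 + v'.1 * ℓ.2) = 0 := congrArg Prod.fst h0
  have h4 : (rad v' : ℂ) * ℓ.2 + (conj v'.1 * ℓ.1 - v'.2 * ℓ.2) = 0 := congrArg Prod.snd h0
  have e1 : ((v.2 - v'.2 : ℝ) : ℂ) * ℓ.1 + (v.1 - v'.1) * ℓ.2 = ((rad v + rad v' : ℝ) : ℂ) * ℓ.1 := by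
    push_cast
    linear_combination h1 - h3
  have e2 : conj (v.1 - v'.1) * ℓ.1 - ((v.2 - v'.2 : ℝ) : ℂ) * ℓ.2 = ((rad v + rad v' : ℝ) : ℂ) * ℓ.2 := by
    rw [map_sub]
    push_cast
    linear_combination h2 - h4
  have e3 := norm_sq_aux (v.1 - v'.1) ℓ.1 ℓ.2 (v.2 - v'.2)
  rw [e1, e2, norm_mul, norm_mul, Complex.norm_real, Real.norm_eq_abs, mul_pow, mul_pow, sq_abs] at e3
  have hpos : 0 < ‖ℓ.1‖ ^ 2 + ‖ℓ.2‖ ^ 2 := by
    by_contra hcon
    push Not at hcon
    apply hℓ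
    have a1 : ‖ℓ.1‖ ^ 2 = 0 := by nlinarith [sq_nonneg ‖ℓ.1‖, sq_nonneg ‖ℓ.2‖]
    have a2 : ‖ℓ.2‖ ^ 2 = 0 := by nlinarith [sq_nonneg ‖ℓ.1‖, sq_nonneg ‖ℓ.2‖]
    apply Prod.ext
    · simpa using a1
    · simpa using a2
  have e4 : (rad v + rad v') ^ 2 = ‖v.1 - v'.1‖ ^ 2 + (v.2 - v'.2) ^ 2 := by
    apply mul_right_cancel₀ hpos.ne'
    linarith
  nlinarith [rad_nonneg v, rad_nonneg v']

theorem rad_hopf (ξ : ℂ × ℂ) : rad (hopf ξ) = ‖ξ.1‖ ^ 2 + ‖ξ.2‖ ^ 2 := by
  unfold rad hopf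
  rw [Real.sqrt_eq_iff_mul_self_eq (by positivity) (by positivity)]
  simp only [norm_mul, RCLike.norm_conj, Complex.norm_ofNat]
  ring

theorem hopf_ne {ξ : ℂ × ℂ} (hξ : ξ ≠ 0) : hopf ξ ≠ 0 := by
  intro h
  have h1 := rad_hopf ξ
  rw [h] at h1
  have h2 : rad (0 : ℂ × ℝ) = 0 := by simp [rad]
  rw [h2] at h1
  apply hξ
  have a1 : ‖ξ.1‖ ^ 2 = 0 := by nlinarith [sq_nonneg ‖ξ.1‖, sq_nonneg ‖ξ.2‖]
  have a2 : ‖ξ.2‖ ^ 2 = 0 := by nlinarith [sq_nonneg ‖ξ.1‖, sq_nonneg ‖ξ.2‖]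
  apply Prod.ext
  · simpa using a1
  · simpa using a2

theorem hopf_E (t : ℝ) (ξ : ℂ × ℂ) : hopf (E t * ξ.1, E t * ξ.2) = hopf ξ := by
  unfold hopf
  have h1 : E t * conj (E t) = 1 := by
    rw [Complex.mul_conj, Complex.normSq_eq_norm_sq, norm_E]
    simp
  apply Prod.ext
  · simp only [map_mul]
    linear_combination (2 * ξ.1 * conj ξ.2) * h1
  · simp only [norm_mul, norm_E, one_mul]

/-- the Hermitian product -/
noncomputable def hp (ℓ ξ : ℂ × ℂ) : ℂ := conj ℓ.1 * ξ.1 + conj ℓ.2 * ξ.2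

theorem hp_cont : Continuous (fun p : (ℂ × ℂ) × (ℂ × ℂ) => hp p.1 p.2) := by
  unfold hp
  fun_prop

theorem hp_ne {ξ ℓ : ℂ × ℂ} (hξ : ξ ≠ 0) (hℓ : ℓ ≠ 0) (h : InLine (hopf ξ) ℓ) : hp ℓ ξ ≠ 0 := by
  obtain ⟨h1, h2⟩ := h
  rw [rad_hopf] at h1 h2
  simp only [hopf, map_mul, Complex.conj_conj] at h1 h2
  push_cast at h1 h2
  have n1 := conj_mul_self_eq ξ.1
  have n2 := conj_mul_self_eq ξ.2
  push_cast at n1 n2
  rw [← n1, ← n2] at h1 h2
  have c2 : (conj (2 : ℂ)) = 2 := by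
    rw [show (2 : ℂ) = ((2 : ℝ) : ℂ) by norm_num, Complex.conj_ofReal]
  try rw [c2] at h2
  -- the determinant vanishes
  have hdet : ξ.2 * ℓ.1 = ξ.1 * ℓ.2 := by
    by_contra hcon
    have hne : ξ.2 * ℓ.1 - ξ.1 * ℓ.2 ≠ 0 := sub_ne_zero.2 hcon
    have a1 : conj ξ.2 * (ξ.2 * ℓ.1 - ξ.1 * ℓ.2) = 0 := by linear_combination (-1 / 2) * h1
    have a2 : conj ξ.1 * (ξ.2 * ℓ.1 - ξ.1 * ℓ.2) = 0 := by linear_combination (1 / 2) * h2
    have b1 : ξ.2 = 0 := by
      have := (mul_eq_zero.1 a1).resolve_right hne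
      simpa using this
    have b2 : ξ.1 = 0 := by
      have := (mul_eq_zero.1 a2).resolve_right hne
      simpa using this
    exact hξ (Prod.ext b2 b1)
  intro h0
  unfold hp at h0
  have m1 := conj_mul_self_eq ℓ.1
  have m2 := conj_mul_self_eq ℓ.2
  have e1 : (conj ℓ.1 * ℓ.1 + conj ℓ.2 * ℓ.2) * ξ.1 = 0 := by
    linear_combination ℓ.1 * h0 - conj ℓ.2 * hdet
  have e2 : (conj ℓ.1 * ℓ.1 + conj ℓ.2 * ℓ.2) * ξ.2 = 0 := by
    linear_combination ℓ.2 * h0 + conj ℓ.1 * hdet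
  have hpos : (conj ℓ.1 * ℓ.1 + conj ℓ.2 * ℓ.2) ≠ 0 := by
    rw [m1, m2]
    intro hz
    have hz' : ‖ℓ.1‖ ^ 2 + ‖ℓ.2‖ ^ 2 = 0 := by exact_mod_cast hz
    apply hℓ
    have a1 : ‖ℓ.1‖ ^ 2 = 0 := by nlinarith [sq_nonneg ‖ℓ.1‖, sq_nonneg ‖ℓ.2‖]
    have a2 : ‖ℓ.2‖ ^ 2 = 0 := by nlinarith [sq_nonneg ‖ℓ.1‖, sq_nonneg ‖ℓ.2‖]
    apply Prod.ext
    · simpa using a1
    · simpa using a2
  exact hξ (Prod.ext ((mul_eq_zero.1 e1).resolve_left hpos) ((mul_eq_zero.1 e2).resolve_left hpos))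

/-- iterated projections along a ray -/
noncomputable def itp {X : Type*} [NormedAddCommGroup X] [NormedSpace ℝ X] (g : X → ℂ × ℝ)
    (w : ℂ × ℂ) (N : ℕ) : ℕ → X → ℂ × ℂ
  | 0 => fun _ => pr (g 0) w
  | k + 1 => fun x => pr (g ((((k : ℝ) + 1) / N) • x)) (itp g w N k x)

/-- A continuous nowhere vanishing map of a finite-dimensional space to `ℂ × ℝ` has a lift through
the Hopf map (up to positive factors) on every ball. -/
theorem exists_lift {X : Type*} [NormedAddCommGroup X] [NormedSpace ℝ X] [FiniteDimensional ℝ X]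
    {g : X → ℂ × ℝ} (hg : Continuous g) (hg0 : ∀ x, g x ≠ 0) (R : ℝ) :
    ∃ ℓ : X → ℂ × ℂ, Continuous ℓ ∧ ∀ x, ‖x‖ ≤ R → ℓ x ≠ 0 ∧ InLine (g x) (ℓ x) := by
  have hX : ProperSpace X := FiniteDimensional.proper ℝ X
  have hball : IsCompact (Metric.closedBall (0 : X) R) := isCompact_closedBall 0 R
  -- a lower bound for the radius
  obtain ⟨δ, hδ, hδr⟩ : ∃ δ : ℝ, 0 < δ ∧ ∀ x ∈ Metric.closedBall (0 : X) R, δ ≤ rad (g x) := by
    by_cases hne : (Metric.closedBall (0 : X) R).Nonempty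
    · obtain ⟨x, -, hx⟩ := hball.exists_isMinOn hne (rad_cont.comp hg).continuousOn
      exact ⟨rad (g x), rad_pos (hg0 x), fun y hy => hx hy⟩
    · rw [not_nonempty_iff_eq_empty] at hne
      exact ⟨1, one_pos, by rw [hne]; simp⟩
  -- uniform continuity
  have huc := hball.uniformContinuousOn_of_continuous hg.continuousOn
  rw [Metric.uniformContinuousOn_iff] at huc
  obtain ⟨η, hη, hgη⟩ := huc (δ / 2) (by linarith)
  obtain ⟨N, hN⟩ := exists_nat_gt (|R| / η)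
  have hN0 : (0 : ℝ) < N := lt_of_le_of_lt (by positivity) hN
  -- a starting vector
  obtain ⟨w, hw⟩ : ∃ w : ℂ × ℂ, pr (g 0) w ≠ 0 := by
    by_contra hcon
    push Not at hcon
    have h1 := congrArg Prod.fst (hcon (1, 0))
    have h2 := congrArg Prod.snd (hcon (0, 1))
    simp only [pr, mul_one, mul_zero, add_zero, Prod.fst_zero, Prod.snd_zero, zero_sub] at h1 h2
    have h1' : rad (g 0) + (g 0).2 = 0 := by exact_mod_cast h1
    have h2' : rad (g 0) + -(g 0).2 = 0 := by exact_mod_cast h2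
    have := rad_pos (hg0 0)
    linarith
  -- the iterated projections
  obtain ⟨L, hL0, hLs⟩ : ∃ L : ℕ → X → ℂ × ℂ, (∀ x, L 0 x = pr (g 0) w) ∧
      ∀ k x, L (k + 1) x = pr (g ((((k : ℝ) + 1) / N) • x)) (L k x) :=
    ⟨itp g w N, fun x => rfl, fun k x => rfl⟩
  have hLc : ∀ k, Continuous (L k) := by
    intro k
    induction k with
    | zero =>
      have : L 0 = fun _ => pr (g 0) w := funext hL0
      rw [this]
      exact continuous_const
    | succ k ih =>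
      have : L (k + 1) = fun x => pr (g ((((k : ℝ) + 1) / N) • x)) (L k x) := by
        funext x
        exact hLs k x
      rw [this]
      have h1 : Continuous (fun x : X => g ((((k : ℝ) + 1) / N) • x)) :=
        hg.comp (continuous_const_smul (((k : ℝ) + 1) / N))
      have h2 : Continuous (fun x : X => (g ((((k : ℝ) + 1) / N) • x), L k x)) := h1.prodMk ih
      have h3 : Continuous ((fun p : (ℂ × ℝ) × (ℂ × ℂ) => pr p.1 p.2) ∘
          (fun x : X => (g ((((k : ℝ) + 1) / N) • x), L k x))) := Continuous.comp pr_cont h2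
      exact h3
  have key : ∀ k : ℕ, k ≤ N → ∀ x, ‖x‖ ≤ R → L k x ≠ 0 ∧ InLine (g (((k : ℝ) / N) • x)) (L k x) := by
    intro k
    induction k with
    | zero =>
      intro _ x _
      rw [hL0]
      refine ⟨hw, ?_⟩
      have : (((0 : ℕ) : ℝ) / N) • x = 0 := by simp
      rw [this]
      exact inLine_pr _ _
    | succ k ih =>
      intro hk x hx
      obtain ⟨h1, h2⟩ := ih (by omega) x hx
      have hcast : (((k + 1 : ℕ) : ℝ) / N) = (((k : ℝ) + 1) / N) := by push_cast; ring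
      rw [hLs, hcast]
      refine ⟨?_, inLine_pr _ _⟩
      have hkN : (k : ℝ) + 1 ≤ N := by exact_mod_cast hk
      have hk0 : (0 : ℝ) ≤ k := Nat.cast_nonneg k
      have hR : |R| = R := abs_of_nonneg ((norm_nonneg x).trans hx)
      have m1 : ((k : ℝ) / N) • x ∈ Metric.closedBall (0 : X) R := by
        rw [mem_closedBall_zero_iff, norm_smul, Real.norm_eq_abs, abs_of_nonneg (by positivity)]
        have : (k : ℝ) / N ≤ 1 := (div_le_one hN0).2 (by linarith)
        nlinarith [norm_nonneg x]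
      have m2 : (((k : ℝ) + 1) / N) • x ∈ Metric.closedBall (0 : X) R := by
        rw [mem_closedBall_zero_iff, norm_smul, Real.norm_eq_abs, abs_of_nonneg (by positivity)]
        have : ((k : ℝ) + 1) / N ≤ 1 := (div_le_one hN0).2 (by linarith)
        nlinarith [norm_nonneg x]
      have hdist : dist (((k : ℝ) / N) • x) ((((k : ℝ) + 1) / N) • x) < η := by
        rw [dist_eq_norm, ← sub_smul, norm_smul, Real.norm_eq_abs]
        have e : (k : ℝ) / N - ((k : ℝ) + 1) / N = -(1 / N) := by ring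
        rw [e, abs_neg, abs_of_nonneg (by positivity)]
        rw [div_lt_iff₀ hη, hR] at hN
        rw [div_mul_eq_mul_div, one_mul, div_lt_iff₀ hN0]
        linarith
      have hd := hgη _ m1 _ m2 hdist
      apply pr_ne h1 h2
      have hδ1 := hδr _ m1
      rw [Prod.dist_eq, max_lt_iff] at hd
      obtain ⟨d1, d2⟩ := hd
      rw [dist_eq_norm] at d1
      rw [Real.dist_eq] at d2
      have s1 : ‖(g (((k : ℝ) / N) • x)).1 - (g ((((k : ℝ) + 1) / N) • x)).1‖ ^ 2 < (δ / 2) ^ 2 := by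
        gcongr
      have s2 : ((g (((k : ℝ) / N) • x)).2 - (g ((((k : ℝ) + 1) / N) • x)).2) ^ 2 < (δ / 2) ^ 2 := by
        rw [← sq_abs]
        gcongr
      nlinarith
  refine ⟨L N, hLc N, fun x hx => ?_⟩
  have := key N le_rfl x hx
  rwa [div_self hN0.ne', one_smul] at this

end Pool.Agent.U891.FQ
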