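import Pool.Agent.U891.FQ.Main
import Pool.Agent.U891.FQ.Hopf
import Pool.Agent.H774R3.ScM

set_option autoImplicit false
open Set Topology Filter Metric Module
open scoped ComplexConjugate ContDiff

/-!
The simply connected nine-dimensional manifold `(ℝ³ ∖ 0)³` is not the orbit space of a continuous
flow on a finite-dimensional vector space.
-/

namespace Pool.Agent.U891.FQ

open Pool.Agent.H289R3.FQ (T1 ee)

/-- `(ℝ³ ∖ 0)³`, with `ℝ³` written as `ℂ × ℝ` -/
abbrev Q9 : Type := {v : Fin 3 → ℂ × ℝ // ∀ j, v j ≠ 0}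

theorem finrank_three : finrank ℝ (ℂ × ℝ) = finrank ℝ (EuclideanSpace ℝ (Fin 3)) := by
  simp [Complex.finrank_real_complex]

theorem sc_three : SimplyConnectedSpace {v : ℂ × ℝ // v ≠ 0} := by
  have h1 : SimplyConnectedSpace (sphere (0 : EuclideanSpace ℝ (Fin 3)) 1) :=
    Pool.Agent.Helper206.BoxS.Sph.simplyConnected_sphere (by simp)
  have h2 := Pool.Agent.H774R3.sc_ioi
  have h3 := Pool.Agent.H774R3.sc_prod (sphere (0 : EuclideanSpace ℝ (Fin 3)) 1) (Set.Ioi (0 : ℝ))
  have h4 : SimplyConnectedSpace ({0}ᶜ : Set (EuclideanSpace ℝ (Fin 3))) :=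
    (homeomorphUnitSphereProd (EuclideanSpace ℝ (Fin 3))).toHomotopyEquiv.simplyConnectedSpace
  let e : (ℂ × ℝ) ≃L[ℝ] (EuclideanSpace ℝ (Fin 3)) := ContinuousLinearEquiv.ofFinrankEq finrank_three
  let e' : {v : ℂ × ℝ // v ≠ 0} ≃ₜ ({0}ᶜ : Set (EuclideanSpace ℝ (Fin 3))) :=
    e.toHomeomorph.subtype (fun z => by
      simp)
  exact e'.toHomotopyEquiv.simplyConnectedSpace

theorem sc_Q9 : SimplyConnectedSpace Q9 := by
  have h1 := sc_three
  have h2 := Pool.Agent.H774R3.sc_pi (fun _ : Fin 3 => {v : ℂ × ℝ // v ≠ 0})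
  let e : Q9 ≃ₜ (Fin 3 → {v : ℂ × ℝ // v ≠ 0}) :=
    { toFun := fun x i => ⟨x.1 i, x.2 i⟩
      invFun := fun x => ⟨fun i => (x i).1, fun i => (x i).2⟩
      left_inv := fun x => rfl
      right_inv := fun x => rfl
      continuous_toFun := continuous_pi fun i =>
        Continuous.subtype_mk ((continuous_apply i).comp continuous_subtype_val) _
      continuous_invFun := Continuous.subtype_mk
        (continuous_pi fun i => continuous_subtype_val.comp (continuous_apply i)) _ }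
  exact e.toHomotopyEquiv.simplyConnectedSpace

theorem finrank_nine : finrank ℝ (Fin 3 → ℂ × ℝ) = finrank ℝ (EuclideanSpace ℝ (Fin 9)) := by
  rw [Module.finrank_pi_fintype]
  simp [Complex.finrank_real_complex]

/-- the inclusion of `(ℝ³ ∖ 0)³` in `ℝ⁹` -/
noncomputable def incl : Q9 → EuclideanSpace ℝ (Fin 9) := fun v =>
  (ContinuousLinearEquiv.ofFinrankEq finrank_nine : (Fin 3 → ℂ × ℝ) ≃L[ℝ] EuclideanSpace ℝ (Fin 9)) v.1

theorem isOpen_Q9 : IsOpen {v : Fin 3 → ℂ × ℝ | ∀ j, v j ≠ 0} := by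
  have : {v : Fin 3 → ℂ × ℝ | ∀ j, v j ≠ 0} = ⋂ j, {v | v j ≠ 0} := by
    ext v
    simp
  rw [this]
  exact isOpen_iInter_of_finite fun j => isOpen_ne.preimage (continuous_apply j)

theorem incl_open : IsOpenEmbedding incl :=
  (ContinuousLinearEquiv.ofFinrankEq finrank_nine :
    (Fin 3 → ℂ × ℝ) ≃L[ℝ] EuclideanSpace ℝ (Fin 9)).toHomeomorph.isOpenEmbedding.comp
    isOpen_Q9.isOpenEmbedding_subtypeVal

/-- the pair of coordinates of the torus used for the three factors -/
def pa : Fin 3 → Fin 5 := ![0, 2, 2]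
/-- the pair of coordinates of the torus used for the three factors -/
def pb : Fin 3 → Fin 5 := ![1, 4, 3]

/-- the map of the torus to `(ℝ³ ∖ 0)³` -/
noncomputable def tor (y : Fin 5 → ℝ) : Q9 :=
  ⟨fun j => hopf (ct (y (pa j)) (y (pb j))), fun _ => hopf_ne (ct_ne _ _)⟩

theorem tor_cont : Continuous tor := by
  apply Continuous.subtype_mk
  apply continuous_pi
  intro j
  have h1 : Continuous (fun y : Fin 5 → ℝ => (y (pa j), y (pb j))) := by fun_prop
  exact hopf_cont.comp (Continuous.comp ct_cont h1)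

theorem tor_int (y : Fin 5 → ℝ) (k : Fin 5 → ℤ) : tor (fun j => y j + k j) = tor y := by
  apply Subtype.ext
  funext j
  simp only [tor]
  rw [ct_int, hopf_E]

/-- `(ℝ³ ∖ 0)³` is not the orbit space of a continuous flow on a finite-dimensional space. -/
theorem not_orbit_space {X : Type*} [NormedAddCommGroup X] [NormedSpace ℝ X]
    [FiniteDimensional ℝ X] {φ : ℝ → X → X} {f : X → Q9} (h : TFlow φ f)
    (hf : Function.Surjective f) : False := by
  classical
  have hX : ProperSpace X := FiniteDimensional.proper ℝ X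
  apply no_flow h tor_cont tor_int (fun y => hf (tor y))
  intro L hL
  obtain ⟨R, hR⟩ := hL.isBounded.subset_ball 0
  -- the lifts
  have hlift : ∀ j : Fin 3, ∃ ℓ : X → ℂ × ℂ, Continuous ℓ ∧
      ∀ x, ‖x‖ ≤ R → ℓ x ≠ 0 ∧ InLine ((f x).1 j) (ℓ x) := by
    intro j
    exact exists_lift (g := fun x => (f x).1 j)
      ((continuous_apply j).comp (continuous_subtype_val.comp h.fcont)) (fun x => (f x).2 j) R
  choose ℓ hℓc hℓ using hlift
  let D : Fin 3 → X × (Fin 5 → ℝ) → T1 := fun j p => ang (hp (ℓ j p.1) (ct (p.2 (pa j)) (p.2 (pb j))))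
  have hne : ∀ (j : Fin 3) (x : X) (y : Fin 5 → ℝ), x ∈ ball (0 : X) R → f x = tor y →
      hp (ℓ j x) (ct (y (pa j)) (y (pb j))) ≠ 0 := by
    intro j x y hx hxy
    obtain ⟨h1, h2⟩ := hℓ j x (by rw [mem_ball_zero_iff] at hx; exact hx.le)
    rw [hxy] at h2
    exact hp_ne (ct_ne _ _) h1 h2
  have hDc : ∀ j, ContinuousOn (D j) {p | p.1 ∈ ball (0 : X) R ∧ f p.1 = tor p.2} := by
    intro j p hp'
    apply ContinuousAt.continuousWithinAt
    have h1 : Continuous (fun p : X × (Fin 5 → ℝ) => (p.2 (pa j), p.2 (pb j))) := by fun_prop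
    have h2 : Continuous (fun p : X × (Fin 5 → ℝ) => ct (p.2 (pa j)) (p.2 (pb j))) :=
      Continuous.comp ct_cont h1
    have h3 : Continuous (fun p : X × (Fin 5 → ℝ) => ℓ j p.1) := (hℓc j).comp continuous_fst
    have h4 : Continuous (fun p : X × (Fin 5 → ℝ) =>
        hp (ℓ j p.1) (ct (p.2 (pa j)) (p.2 (pb j)))) := Continuous.comp hp_cont (h3.prodMk h2)
    exact ContinuousAt.comp (g := ang) (ang_cont (hne j p.1 p.2 hp'.1 hp'.2)) h4.continuousAt
  have hab : ∀ j, pa j ≠ pb j := by decide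
  have hDt : ∀ (j : Fin 3) (x : X) (y : Fin 5 → ℝ), x ∈ ball (0 : X) R → f x = tor y →
      ∀ i, D j (x, y + ee i) = D j (x, y) + (((if i = pb j then y (pa j) else 0 : ℝ)) : T1) := by
    intro j x y hx hxy i
    simp only [D]
    have hsh : ∀ m : Fin 5, (y + ee i) m = y m + ((if m = i then 1 else 0 : ℤ) : ℝ) := by
      intro m
      simp only [Pi.add_apply, ee]
      by_cases hm : m = i
      · subst hm; simp
      · simp [hm]
    rw [hsh, hsh, ct_int]
    have hE : hp (ℓ j x) (E (((if pb j = i then 1 else 0 : ℤ) : ℝ) * y (pa j)) *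
        (ct (y (pa j)) (y (pb j))).1, E (((if pb j = i then 1 else 0 : ℤ) : ℝ) * y (pa j)) *
        (ct (y (pa j)) (y (pb j))).2) = E (((if pb j = i then 1 else 0 : ℤ) : ℝ) * y (pa j)) *
        hp (ℓ j x) (ct (y (pa j)) (y (pb j))) := by
      unfold hp
      ring
    rw [hE, ang_E_mul (hne j x y hx hxy)]
    congr 2
    by_cases hi : i = pb j
    · simp [hi]
    · have hi' : ¬ (pb j = i) := fun hh => hi hh.symm
      simp [hi, hi']
  let idx : Fin 5 → Fin 5 → Fin 3 := fun _ b => if b = 1 then 0 else if b = 4 then 1 else 2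
  refine ⟨ball 0 R, fun a b => D (idx a b), isOpen_ball, hR, ?_⟩
  intro a b hab'
  have hidx : pa (idx a b) = a ∧ pb (idx a b) = b := by
    rcases hab' with hh | hh | hh <;>
    · obtain ⟨rfl, rfl⟩ := Prod.mk.inj hh
      decide
  refine ⟨hDc _, ?_⟩
  intro x y hx hxy j
  have := hDt (idx a b) x y hx hxy j
  rw [hidx.1, hidx.2] at this
  exact this

end Pool.Agent.U891.FQ
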