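import Pool.Agent.H289R3.FQ.Slope
import Pool.Agent.H289R3.FQ.Pull

set_option autoImplicit false
open Set Topology Filter

/-!
Continuous real flows with open quotient map and Hausdorff quotient. The structure `TFlow` is the
structure `QFlow` of `Pool.Agent.H289R3.FQ.Flow` without the field on local sections; the proofs
of the lemmas which did not use local sections follow that file.
-/

namespace Pool.Agent.U891.FQ

open Pool.Agent.H289R3.FQ (T1 sm coe_sm coe_eq_zero sm_cont lift_unique Null val sSup_add_const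
  null_nhds IsVar comb comb_cont comb_var PB)

/-- A continuous real flow `φ` on `Y` with open continuous quotient map `f`, whose fibres are the
orbits. -/
structure TFlow {Y N : Type*} [TopologicalSpace Y] [TopologicalSpace N] (φ : ℝ → Y → Y)
    (f : Y → N) : Prop where
  cont : Continuous (fun p : ℝ × Y => φ p.1 p.2)
  zero : ∀ y, φ 0 y = y
  add : ∀ s t y, φ (s + t) y = φ s (φ t y)
  fcont : Continuous f
  fopen : IsOpenMap f
  fibre : ∀ x y, f x = f y ↔ ∃ t, φ t x = y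

variable {Y N : Type*} [TopologicalSpace Y] [TopologicalSpace N] {φ : ℝ → Y → Y} {f : Y → N}

theorem TFlow.orbit_cont (h : TFlow φ f) (y : Y) : Continuous (fun t => φ t y) :=
  h.cont.comp (continuous_id.prodMk continuous_const)

theorem TFlow.time_cont (h : TFlow φ f) (t : ℝ) : Continuous (φ t) :=
  h.cont.comp (continuous_const.prodMk continuous_id)

theorem TFlow.f_flow (h : TFlow φ f) (t : ℝ) (y : Y) : f (φ t y) = f y :=
  ((h.fibre y (φ t y)).2 ⟨t, rfl⟩).symm

theorem TFlow.neg_cancel (h : TFlow φ f) (t : ℝ) (y : Y) : φ (-t) (φ t y) = y := by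
  rw [← h.add, neg_add_cancel, h.zero]

theorem TFlow.fibre_eq (h : TFlow φ f) (y : Y) : f ⁻¹' {f y} = range (fun t => φ t y) := by
  ext z
  simp only [mem_preimage, mem_singleton_iff, mem_range]
  rw [eq_comm, h.fibre y z]

theorem TFlow.conn (h : TFlow φ f) (n : N) : IsPreconnected (f ⁻¹' {n}) := by
  by_cases hn : ∃ y, f y = n
  · obtain ⟨y, rfl⟩ := hn
    rw [h.fibre_eq]
    exact isPreconnected_range (h.orbit_cont y)
  · have : f ⁻¹' {n} = ∅ := by
      ext z
      simp only [mem_preimage, mem_singleton_iff, mem_empty_iff_false, iff_false]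
      exact fun hz => hn ⟨z, hz⟩
    rw [this]
    exact isPreconnected_empty

/-- compact orbits are stable -/
theorem TFlow.stable [T2Space Y] [LocallyCompactSpace Y] [T2Space N] (h : TFlow φ f) {y0 : Y}
    (hc : IsCompact (f ⁻¹' {f y0})) {O : Set Y} (hO : IsOpen O) (hsub : f ⁻¹' {f y0} ⊆ O) :
    ∃ L : Set Y, IsCompact L ∧ L ⊆ O ∧ ∀ᶠ n in 𝓝 (f y0), f ⁻¹' {n} ⊆ L := by
  obtain ⟨L, hL, h1, h2⟩ := exists_compact_between hc hO hsub
  refine ⟨L, hL, h2, ?_⟩
  have hfr : IsCompact (frontier (interior L)) := by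
    apply hL.of_isClosed_subset isClosed_frontier
    exact (frontier_subset_closure.trans (closure_mono interior_subset)).trans
      hL.isClosed.closure_subset
  have hcl : IsClosed (f '' frontier (interior L)) := (hfr.image h.fcont).isClosed
  have hnot : f y0 ∉ f '' frontier (interior L) := by
    rintro ⟨z, hz, hzf⟩
    have : z ∈ interior L := h1 hzf
    have hfe := (isOpen_interior (s := L)).frontier_eq
    rw [hfe] at hz
    exact hz.2 this
  have e1 : ∀ᶠ n in 𝓝 (f y0), n ∉ f '' frontier (interior L) := hcl.isOpen_compl.mem_nhds hnot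
  have e2 : ∀ᶠ n in 𝓝 (f y0), n ∈ f '' interior L :=
    (h.fopen _ isOpen_interior).mem_nhds ⟨y0, h1 rfl, rfl⟩
  filter_upwards [e1, e2] with n hn1 hn2
  obtain ⟨z, hz, rfl⟩ := hn2
  by_contra hcon
  obtain ⟨w, hw, hwL⟩ := not_subset.1 hcon
  have hfe := (isOpen_interior (s := L)).frontier_eq
  have hcov : f ⁻¹' {f z} ⊆ interior L ∪ (closure (interior L))ᶜ := by
    intro v hv
    by_contra hv'
    simp only [mem_union, mem_compl_iff, not_or, not_not] at hv'
    exact hn1 ⟨v, by rw [hfe]; exact ⟨hv'.2, hv'.1⟩, hv⟩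
  obtain ⟨v, -, hv1, hv2⟩ := h.conn (f z) _ _ isOpen_interior isClosed_closure.isOpen_compl hcov
    ⟨z, rfl, hz⟩ ⟨w, hw, fun hw' => hwL (by
      have : closure (interior L) ⊆ L := (closure_mono interior_subset).trans
        hL.isClosed.closure_subset
      exact this hw')⟩
  exact hv2 (subset_closure hv1)

theorem TFlow.compact_nhds [T2Space Y] [LocallyCompactSpace Y] [T2Space N] (h : TFlow φ f) {y0 : Y}
    (hc : IsCompact (f ⁻¹' {f y0})) : ∀ᶠ n in 𝓝 (f y0), IsCompact (f ⁻¹' {n}) := by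
  obtain ⟨L, hL, -, h2⟩ := h.stable hc isOpen_univ (subset_univ _)
  filter_upwards [h2] with n hn
  exact hL.of_isClosed_subset (isClosed_singleton.preimage h.fcont) hn

/-- a free orbit is injectively parametrized -/
theorem TFlow.inj_of_free (h : TFlow φ f) {y : Y} (hy : ∀ T, φ T y = y → T = 0) {a b : ℝ}
    (hab : φ a y = φ b y) : a = b := by
  have : φ (a - b) y = y := by
    have e : a - b = -b + a := by ring
    rw [e, h.add, hab, h.neg_cancel]
  linarith [hy _ this]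

/-- A free orbit is closed, and a proper image of the line. -/
theorem TFlow.proper_of_free [T2Space Y] [LocallyCompactSpace Y] [T1Space N] (h : TFlow φ f)
    {y : Y} (hy : ∀ T, φ T y = y → T = 0) {A : Set Y} (hA : IsCompact A) :
    ∃ M : ℝ, ∀ t, φ t y ∈ A → |t| ≤ M := by
  have hCcl : IsClosed (f ⁻¹' {f y}) := isClosed_singleton.preimage h.fcont
  have : LocallyCompactSpace (f ⁻¹' {f y}) := hCcl.isClosedEmbedding_subtypeVal.locallyCompactSpace
  have : Nonempty (f ⁻¹' {f y}) := ⟨⟨y, rfl⟩⟩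
  -- the arcs
  let F : ℕ → Set (f ⁻¹' {f y}) := fun n =>
    Subtype.val ⁻¹' ((fun t => φ t y) '' Icc (-(n : ℝ)) n)
  have hF : ∀ n, IsClosed (F n) := fun n =>
    ((isCompact_Icc.image (h.orbit_cont y)).isClosed).preimage continuous_subtype_val
  have hU : ⋃ n, F n = univ := by
    apply eq_univ_of_forall
    rintro ⟨z, hz⟩
    obtain ⟨t, rfl⟩ := (h.fibre y z).1 (Eq.symm hz)
    obtain ⟨n, hn⟩ := exists_nat_ge |t|
    exact mem_iUnion.2 ⟨n, t, abs_le.1 hn, rfl⟩
  obtain ⟨n, z, hz⟩ := nonempty_interior_of_iUnion_of_closed hF hU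
  obtain ⟨O, hO, hOz⟩ := isOpen_induced_iff.1 (isOpen_interior (s := F n))
  have hzO : z.1 ∈ O := by
    have : z ∈ Subtype.val ⁻¹' O := by rw [hOz]; exact hz
    exact this
  have hOF : ∀ w, f w = f y → w ∈ O → ∃ t : ℝ, |t| ≤ (n : ℝ) ∧ φ t y = w := by
    intro w hw hwO
    have h1 : (⟨w, hw⟩ : f ⁻¹' {f y}) ∈ interior (F n) := by
      rw [← hOz]; exact hwO
    obtain ⟨t, ht, hte⟩ := interior_subset h1
    exact ⟨t, abs_le.2 ht, hte⟩
  -- cover the part of the orbit in `A` by translates of `O`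
  have hcomp : IsCompact (A ∩ f ⁻¹' {f y}) := hA.inter_right hCcl
  have key : ∃ M : ℝ, ∀ w ∈ A ∩ f ⁻¹' {f y}, ∃ t : ℝ, |t| ≤ M ∧ φ t y = w := by
    refine hcomp.induction_on (p := fun s => ∃ M : ℝ, ∀ w ∈ s, ∃ t : ℝ, |t| ≤ M ∧ φ t y = w)
      ?_ ?_ ?_ ?_
    · exact ⟨0, by simp⟩
    · rintro s t hst ⟨M, hM⟩
      exact ⟨M, fun w hw => hM w (hst hw)⟩
    · rintro s t ⟨M, hM⟩ ⟨M', hM'⟩
      refine ⟨max M M', ?_⟩
      rintro w (hw | hw)
      · obtain ⟨t, ht, hte⟩ := hM w hw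
        exact ⟨t, ht.trans (le_max_left _ _), hte⟩
      · obtain ⟨t, ht, hte⟩ := hM' w hw
        exact ⟨t, ht.trans (le_max_right _ _), hte⟩
    · rintro w ⟨-, hw⟩
      have hzf : f z.1 = f y := z.2
      obtain ⟨s, hs⟩ := (h.fibre w z.1).1 (by rw [hzf]; exact hw)
      refine ⟨(φ s) ⁻¹' O ∩ f ⁻¹' {f y}, ?_, n + |s|, ?_⟩
      · have h1 : (φ s) ⁻¹' O ∈ 𝓝 w := (hO.preimage (h.time_cont s)).mem_nhds (by
          change φ s w ∈ O; rw [hs]; exact hzO)
        exact mem_of_superset (inter_mem (mem_nhdsWithin_of_mem_nhds h1) self_mem_nhdsWithin)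
          (fun v hv => ⟨hv.1, hv.2.2⟩)
      · rintro v ⟨hv1, hv2⟩
        obtain ⟨t, ht, hte⟩ := hOF (φ s v) (by rw [h.f_flow]; exact hv2) hv1
        refine ⟨-s + t, ?_, ?_⟩
        · calc |-s + t| ≤ |-s| + |t| := abs_add_le _ _
            _ ≤ n + |s| := by rw [abs_neg]; linarith
        · rw [h.add, hte, h.neg_cancel]
  obtain ⟨M, hM⟩ := key
  refine ⟨M, fun t ht => ?_⟩
  obtain ⟨t', ht', hte⟩ := hM (φ t y) ⟨ht, h.f_flow t y⟩
  rw [← h.inj_of_free hy hte]
  exact ht'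

theorem TFlow.periodic [T2Space Y] [LocallyCompactSpace Y] [T1Space N] (h : TFlow φ f) {y : Y}
    (hc : IsCompact (f ⁻¹' {f y})) : ∃ T > 0, φ T y = y := by
  by_contra hcon
  push Not at hcon
  have hy : ∀ T, φ T y = y → T = 0 := by
    intro T hT
    rcases lt_trichotomy T 0 with h0 | h0 | h0
    · exfalso
      apply hcon (-T) (by linarith)
      conv_lhs => rw [← hT]
      rw [h.neg_cancel]
    · exact h0
    · exact absurd hT (hcon T h0)
  obtain ⟨M, hM⟩ := h.proper_of_free hy hc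
  have := hM (|M| + 1) (h.f_flow _ _)
  rw [abs_of_nonneg (by positivity)] at this
  linarith [le_abs_self M]

theorem TFlow.compact_of_periodic (h : TFlow φ f) {y : Y} {T : ℝ} (hT0 : T ≠ 0)
    (hT : φ T y = y) : IsCompact (f ⁻¹' {f y}) := by
  have hT' : φ |T| y = y := by
    rcases le_total 0 T with h0 | h0
    · rwa [abs_of_nonneg h0]
    · rw [abs_of_nonpos h0]
      conv_lhs => rw [← hT]
      rw [← h.add, neg_add_cancel, h.zero]
  have hper : Function.Periodic (fun t => φ t y) |T| := by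
    intro s
    simp only
    rw [h.add, hT']
  rw [h.fibre_eq]
  have : range (fun t => φ t y) = (fun t => φ t y) '' Icc 0 |T| := by
    apply Subset.antisymm
    · rintro _ ⟨t, rfl⟩
      obtain ⟨s, hs, hs'⟩ := hper.exists_mem_Ico₀ (abs_pos.2 hT0) t
      exact ⟨s, ⟨hs.1, hs.2.le⟩, hs'.symm⟩
    · rintro _ ⟨t, -, rfl⟩
      exact ⟨t, rfl⟩
  rw [this]
  exact isCompact_Icc.image (h.orbit_cont y)

theorem TFlow.val_eq (h : TFlow φ f) {D : Y → T1} {n : N} (hc : IsCompact (f ⁻¹' {n}))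
    {l : Y → ℝ} (hl : ContinuousOn l (f ⁻¹' {n})) (hD : ∀ z ∈ f ⁻¹' {n}, ((l z : ℝ) : T1) = D z) :
    val f D n = ((sSup (l '' (f ⁻¹' {n})) : ℝ) : T1) := by
  have hN : Null f D n := ⟨l, hl, hD⟩
  unfold val
  rw [dif_pos hN]
  obtain ⟨hl', hD'⟩ := hN.choose_spec
  set l' := hN.choose with hl'def
  rcases (f ⁻¹' {n}).eq_empty_or_nonempty with he | ⟨z0, hz0⟩
  · rw [he, image_empty, image_empty]
  · have hu := lift_unique (h.conn n) hl hl' (fun z hz => by rw [hD z hz, hD' z hz]) hz0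
    have himg : l' '' (f ⁻¹' {n}) = (fun x => x + (l' z0 - l z0)) '' (l '' (f ⁻¹' {n})) := by
      rw [image_image]
      exact image_congr hu
    have hi : (((l' z0 - l z0 : ℝ)) : T1) = 0 := by
      rw [AddCircle.coe_sub, hD z0 hz0, hD' z0 hz0, sub_self]
    rw [himg, sSup_add_const (Set.Nonempty.image l ⟨z0, hz0⟩)
      (hc.image_of_continuousOn hl).bddAbove,
      AddCircle.coe_add, hi, add_zero]

theorem TFlow.val_cont [T2Space Y] [NormalSpace Y] [LocallyCompactSpace Y] [T2Space N]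
    (h : TFlow φ f) {D : Y → T1} (hDc : Continuous D)
    {y0 : Y} (hc : IsCompact (f ⁻¹' {f y0})) (hN : Null f D (f y0)) :
    ContinuousAt (val f D) (f y0) ∧ ∀ᶠ n in 𝓝 (f y0), Null f D n := by
  obtain ⟨l0, hl0, hlD0⟩ := hN
  obtain ⟨O, l, hO, hKO, hl, hlD⟩ := null_nhds hDc hc.isClosed hl0 hlD0
  obtain ⟨L, hL, hLO, hev⟩ := h.stable hc hO hKO
  have hcn : ∀ᶠ n in 𝓝 (f y0), IsCompact (f ⁻¹' {n}) := h.compact_nhds hc
  have hval : ∀ᶠ n in 𝓝 (f y0), val f D n = ((sSup (l '' (f ⁻¹' {n})) : ℝ) : T1) := by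
    filter_upwards [hev, hcn] with n hn hn'
    exact h.val_eq hn' (hl.mono (hn.trans hLO)) (fun z hz => hlD z (hLO (hn hz)))
  refine ⟨?_, ?_⟩
  swap
  · filter_upwards [hev] with n hn
    exact ⟨l, hl.mono (hn.trans hLO), fun z hz => hlD z (hLO (hn hz))⟩
  set m0 := sSup (l '' (f ⁻¹' {f y0})) with hm0
  have hlim : Tendsto (fun n => sSup (l '' (f ⁻¹' {n}))) (𝓝 (f y0)) (𝓝 m0) := by
    rw [Metric.tendsto_nhds]
    intro ε hε
    have hbd0 : BddAbove (l '' (f ⁻¹' {f y0})) :=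
      (hc.image_of_continuousOn (hl.mono hKO)).bddAbove
    have hle0 : ∀ z ∈ f ⁻¹' {f y0}, l z ≤ m0 := fun z hz => le_csSup hbd0 ⟨z, hz, rfl⟩
    -- upper bound
    have hO1 : IsOpen (O ∩ l ⁻¹' Iio (m0 + ε / 2)) := hl.isOpen_inter_preimage hO isOpen_Iio
    obtain ⟨L1, -, hL1O, hev1⟩ := h.stable hc hO1 (fun z hz => ⟨hKO hz, by
      change l z < m0 + ε / 2
      linarith [hle0 z hz]⟩)
    -- lower bound
    obtain ⟨z0, hz0, hz0m⟩ := hc.exists_isMaxOn ⟨y0, rfl⟩ (hl.mono hKO)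
    have hz0' : m0 ≤ l z0 := csSup_le (Set.Nonempty.image l ⟨y0, rfl⟩)
      (by rintro _ ⟨z, hz, rfl⟩; exact hz0m hz)
    have hO2 : IsOpen (O ∩ l ⁻¹' Ioi (m0 - ε / 2)) := hl.isOpen_inter_preimage hO isOpen_Ioi
    have hev2 : ∀ᶠ n in 𝓝 (f y0), n ∈ f '' (O ∩ l ⁻¹' Ioi (m0 - ε / 2)) :=
      (h.fopen _ hO2).mem_nhds ⟨z0, ⟨hKO hz0, by
        change m0 - ε / 2 < l z0
        linarith⟩, hz0⟩
    filter_upwards [hev, hev1, hev2, hcn] with n hn hn1 hn2 hn3
    obtain ⟨z, ⟨hzO, hzl⟩, hzn⟩ := hn2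
    have hbd : BddAbove (l '' (f ⁻¹' {n})) :=
      (hn3.image_of_continuousOn (hl.mono (hn.trans hLO))).bddAbove
    have h1 : l z ≤ sSup (l '' (f ⁻¹' {n})) := le_csSup hbd ⟨z, hzn, rfl⟩
    have h2 : sSup (l '' (f ⁻¹' {n})) ≤ m0 + ε / 2 := by
      apply csSup_le (Set.Nonempty.image l ⟨z, hzn⟩)
      rintro _ ⟨w, hw, rfl⟩
      exact (hL1O (hn1 hw)).2.le
    have h3 : m0 - ε / 2 < l z := hzl
    rw [Real.dist_eq, abs_lt]
    constructor <;> linarith
  rw [ContinuousAt, hval.self_of_nhds]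
  exact (((AddCircle.continuous_mk' (1 : ℝ)).tendsto m0).comp hlim).congr' (by
    filter_upwards [hval] with n hn
    exact hn.symm)

theorem TFlow.val_translate (h : TFlow φ f) {D : Y → T1} {n n' : N}
    (hc : IsCompact (f ⁻¹' {n})) (hc' : IsCompact (f ⁻¹' {n'})) (hne : (f ⁻¹' {n}).Nonempty)
    (τ : Y ≃ₜ Y) (hτ : ∀ z, f z = n ↔ f (τ z) = n') {c : ℝ}
    (hD : ∀ z ∈ f ⁻¹' {n}, D (τ z) = D z + (c : T1)) (hN : Null f D n) :
    Null f D n' ∧ val f D n' = val f D n + (c : T1) := by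
  obtain ⟨l, hl, hlD⟩ := hN
  have hmem : ∀ z ∈ f ⁻¹' {n'}, τ.symm z ∈ f ⁻¹' {n} := by
    intro z hz
    change f (τ.symm z) = n
    rw [hτ, τ.apply_symm_apply]
    exact hz
  have hl' : ContinuousOn (fun z => l (τ.symm z) + c) (f ⁻¹' {n'}) :=
    (hl.comp τ.symm.continuous.continuousOn hmem).add continuousOn_const
  have hlD' : ∀ z ∈ f ⁻¹' {n'}, ((l (τ.symm z) + c : ℝ) : T1) = D z := by
    intro z hz
    rw [AddCircle.coe_add, hlD _ (hmem z hz), ← hD _ (hmem z hz), τ.apply_symm_apply]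
  refine ⟨⟨_, hl', hlD'⟩, ?_⟩
  rw [h.val_eq hc' hl' hlD', h.val_eq hc hl hlD]
  have himg : (fun z => l (τ.symm z) + c) '' (f ⁻¹' {n'}) =
      (fun x => x + c) '' (l '' (f ⁻¹' {n})) := by
    ext x
    constructor
    · rintro ⟨z, hz, rfl⟩
      exact ⟨_, ⟨_, hmem z hz, rfl⟩, rfl⟩
    · rintro ⟨_, ⟨z, hz, rfl⟩, rfl⟩
      refine ⟨τ z, (hτ z).1 hz, ?_⟩
      simp only [τ.symm_apply_apply]
  rw [himg, sSup_add_const (hne.image _) (hc.image_of_continuousOn hl).bddAbove,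
    AddCircle.coe_add]

/-! ### pull back and restriction -/

/-- the pulled back flow -/
def PBflow {N' : Type*} (h : TFlow φ f) (e : N' → N) (t : ℝ) (p : PB f e) : PB f e :=
  ⟨(φ t p.1.1, p.1.2), by rw [h.f_flow]; exact p.2⟩

theorem TFlow.pull {N' : Type*} [TopologicalSpace N'] (h : TFlow φ f) {e : N' → N}
    (he : Continuous e) : TFlow (PBflow h e) (fun p : PB f e => p.1.2) where
  cont := by
    apply Continuous.subtype_mk
    exact (h.cont.comp (continuous_fst.prodMk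
      (continuous_fst.comp (continuous_subtype_val.comp continuous_snd)))).prodMk
      (continuous_snd.comp (continuous_subtype_val.comp continuous_snd))
  zero p := Subtype.ext (Prod.ext (h.zero _) rfl)
  add s t p := Subtype.ext (Prod.ext (h.add _ _ _) rfl)
  fcont := continuous_snd.comp continuous_subtype_val
  fopen := by
    intro O hO
    obtain ⟨O', hO', rfl⟩ := isOpen_induced_iff.1 hO
    rw [isOpen_iff_mem_nhds]
    rintro _ ⟨p, hp, rfl⟩
    obtain ⟨A, B, hA, hB, hpA, hpB, hAB⟩ := isOpen_prod_iff.1 hO' p.1.1 p.1.2 hp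
    have h1 : B ∩ e ⁻¹' (f '' A) ∈ 𝓝 p.1.2 :=
      (hB.inter ((h.fopen A hA).preimage he)).mem_nhds ⟨hpB, p.1.1, hpA, p.2⟩
    filter_upwards [h1] with n hn
    obtain ⟨hn1, q, hq, hqe⟩ := hn
    exact ⟨⟨(q, n), hqe⟩, hAB (Set.mk_mem_prod hq hn1), rfl⟩
  fibre := by
    intro x y
    constructor
    · intro hxy
      have hxy' : x.1.2 = y.1.2 := hxy
      have : f x.1.1 = f y.1.1 := by rw [x.2, y.2, hxy']
      obtain ⟨t, ht⟩ := (h.fibre _ _).1 this
      exact ⟨t, Subtype.ext (Prod.ext ht hxy')⟩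
    · rintro ⟨t, rfl⟩
      rfl

/-- restriction of a flow to the part over a subset of the base -/
def RSflow (h : TFlow φ f) (B : Set N) (t : ℝ) (p : {y : Y // f y ∈ B}) : {y : Y // f y ∈ B} :=
  ⟨φ t p.1, by rw [h.f_flow]; exact p.2⟩

theorem TFlow.restrict (h : TFlow φ f) {B : Set N} (hB : IsOpen B) :
    TFlow (RSflow h B) (fun p : {y : Y // f y ∈ B} => f p.1) where
  cont := by
    apply Continuous.subtype_mk
    exact h.cont.comp (continuous_fst.prodMk (continuous_subtype_val.comp continuous_snd))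
  zero p := Subtype.ext (h.zero _)
  add s t p := Subtype.ext (h.add _ _ _)
  fcont := h.fcont.comp continuous_subtype_val
  fopen := h.fopen.comp (hB.preimage h.fcont).isOpenMap_subtype_val
  fibre := by
    intro x y
    rw [h.fibre x.1 y.1]
    constructor
    · rintro ⟨t, ht⟩
      exact ⟨t, Subtype.ext ht⟩
    · rintro ⟨t, rfl⟩
      exact ⟨t, rfl⟩

end Pool.Agent.U891.FQ
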