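import Pool.Agent.U891.FQ.Flow

set_option autoImplicit false
open Set Topology Filter MeasureTheory intervalIntegral

/-!
Sections over compact sets of free orbits, for a continuous flow with Hausdorff orbit space. There
need not be a local section of the quotient map over a neighbourhood of a free orbit (nearby orbits
may pass several times), but the first passage through a small transversal is continuous over the
set of free orbits.
-/

namespace Pool.Agent.U891.FQ

variable {Y N : Type*} [MetricSpace Y] [TopologicalSpace N] {φ : ℝ → Y → Y} {f : Y → N}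

/-- A continuous function which is strictly monotone along the flow near a given non-fixed
point. -/
theorem TFlow.exists_time (h : TFlow φ f) {x : Y} (hx : φ 1 x ≠ x) :
    ∃ (θ : Y → ℝ) (c ε : ℝ) (W : Set Y), Continuous θ ∧ 0 < c ∧ 0 < ε ∧ W ∈ 𝓝 x ∧
      ∀ z ∈ W, ∀ t ∈ Icc (0 : ℝ) ε, θ z + c * t ≤ θ (φ t z) ∧ θ (φ (-t) z) ≤ θ z - c * t := by
  set d : Y → ℝ := fun z => dist z x with hd
  have hdc : Continuous d := continuous_id.dist continuous_const
  set G : Y → ℝ := fun z => d (φ 1 z) - d z with hG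
  have hGc : Continuous G := (hdc.comp (h.time_cont 1)).sub hdc
  have hGx : 0 < G x := by
    simp only [G, d, dist_self, sub_zero]
    exact dist_pos.2 hx
  set θ : Y → ℝ := fun z => ∫ s in (0 : ℝ)..1, d (φ s z) with hθ
  have hθc : Continuous θ := by
    apply intervalIntegral.continuous_parametric_intervalIntegral_of_continuous'
    exact hdc.comp (h.cont.comp (continuous_snd.prodMk continuous_fst))
  have hint : ∀ (z : Y) (a b : ℝ), IntervalIntegrable (fun s => d (φ s z)) volume a b := fun z a b =>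
    (hdc.comp (h.orbit_cont z)).intervalIntegrable a b
  have hdiff : ∀ (z : Y) (t : ℝ), θ (φ t z) - θ z = ∫ s in (0 : ℝ)..t, G (φ s z) := by
    intro z t
    have e1 : θ (φ t z) = ∫ s in t..(1 + t), d (φ s z) := by
      simp only [θ]
      have : (fun s => d (φ s (φ t z))) = fun s => (fun u => d (φ u z)) (s + t) := by
        funext s
        simp only
        rw [h.add]
      rw [this, intervalIntegral.integral_comp_add_right (fun u => d (φ u z)) t, zero_add]
    have e2 : ∫ s in (0 : ℝ)..t, G (φ s z) =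
        (∫ s in (1 : ℝ)..(1 + t), d (φ s z)) - ∫ s in (0 : ℝ)..t, d (φ s z) := by
      simp only [G]
      rw [intervalIntegral.integral_sub]
      · congr 1
        have : (fun s => d (φ 1 (φ s z))) = fun s => (fun u => d (φ u z)) (s + 1) := by
          funext s
          simp only
          rw [← h.add, add_comm]
        rw [this, intervalIntegral.integral_comp_add_right (fun u => d (φ u z)) 1, zero_add,
          add_comm t 1]
      · exact ((hdc.comp (h.time_cont 1)).comp (h.orbit_cont z)).intervalIntegrable _ _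
      · exact hint z _ _
    rw [e1, e2]
    simp only [θ]
    have a1 := intervalIntegral.integral_add_adjacent_intervals (hint z 0 t) (hint z t (1 + t))
    have a2 := intervalIntegral.integral_add_adjacent_intervals (hint z 0 1) (hint z 1 (1 + t))
    linarith
  -- the neighbourhood
  have hev : ∀ᶠ p : ℝ × Y in 𝓝 ((0 : ℝ), x), G x / 2 < G (φ p.1 p.2) := by
    have hc : Continuous (fun p : ℝ × Y => G (φ p.1 p.2)) := hGc.comp h.cont
    have : G x / 2 < G (φ ((0 : ℝ), x).1 ((0 : ℝ), x).2) := by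
      simp only [h.zero]
      linarith
    exact (hc.tendsto ((0 : ℝ), x)).eventually (lt_mem_nhds this)
  rw [nhds_prod_eq, Filter.eventually_prod_iff] at hev
  obtain ⟨pa, ha, pb, hb, hab⟩ := hev
  obtain ⟨ε, hε, hεa⟩ := Metric.eventually_nhds_iff.1 ha
  have hin : ∀ s : ℝ, |s| ≤ ε / 2 → pa s := by
    intro s hs
    apply hεa
    rw [Real.dist_eq, sub_zero]
    linarith
  refine ⟨θ, G x / 2, ε / 2, {z | pb z}, hθc, by linarith, by linarith, hb, ?_⟩
  intro z hz t ht
  have hGint : ∀ a b : ℝ, IntervalIntegrable (fun s => G (φ s z)) volume a b := fun a b =>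
    (hGc.comp (h.orbit_cont z)).intervalIntegrable a b
  constructor
  · have h1 := hdiff z t
    have h2 : ∫ s in (0 : ℝ)..t, G x / 2 ≤ ∫ s in (0 : ℝ)..t, G (φ s z) := by
      apply intervalIntegral.integral_mono_on ht.1 _root_.intervalIntegrable_const (hGint _ _)
      intro s hs
      exact (hab (hin s (by rw [abs_of_nonneg hs.1]; exact hs.2.trans ht.2)) hz).le
    rw [intervalIntegral.integral_const, smul_eq_mul, sub_zero] at h2
    linarith
  · have h1 := hdiff z (-t)
    have h2 : ∫ s in (-t)..(0 : ℝ), G x / 2 ≤ ∫ s in (-t)..(0 : ℝ), G (φ s z) := by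
      apply intervalIntegral.integral_mono_on (by linarith [ht.1])
        _root_.intervalIntegrable_const (hGint _ _)
      intro s hs
      refine (hab (hin s ?_) hz).le
      rw [abs_of_nonpos hs.2]
      linarith [hs.1, ht.2]
    rw [intervalIntegral.integral_const, smul_eq_mul] at h2
    rw [intervalIntegral.integral_symm] at h1
    linarith

/-- First passage through a small transversal: a local section over a set `K` of free orbits. -/
structure IsFirst (φ : ℝ → Y → Y) (f : Y → N) (K U : Set N) (z : N → Y) (A : Set Y) : Prop where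
  mem : ∀ m ∈ K ∩ U, z m ∈ A
  sec : ∀ m ∈ K ∩ U, f (z m) = m
  first : ∀ m ∈ K ∩ U, ∀ t, φ t (z m) ∈ A → 0 ≤ t
  cross : ∀ m ∈ K ∩ U, ∀ ε > 0, ∀ᶠ w in 𝓝 (z m), ∃ t, |t| < ε ∧ φ t w ∈ A
  cont : ContinuousOn z (K ∩ U)

theorem TFlow.exists_first [LocallyCompactSpace Y] [T2Space N] (h : TFlow φ f) {K : Set N}
    (hfree : ∀ y, f y ∈ K → ∀ t, φ t y = y → t = 0) {x : Y} (hx : f x ∈ K) :
    ∃ (U : Set N) (z : N → Y) (A : Set Y), IsOpen U ∧ f x ∈ U ∧ IsFirst φ f K U z A := by
  classical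
  have hx1 : φ 1 x ≠ x := fun hh => by
    have := hfree x hx 1 hh
    norm_num at this
  obtain ⟨θ, c, ε, W, hθ, hc, hε, hW, hmono⟩ := h.exists_time hx1
  -- a first compact neighbourhood
  obtain ⟨B₀, hB₀n, hB₀W, hB₀c⟩ := LocallyCompactSpace.local_compact_nhds x W hW
  obtain ⟨M, hM⟩ := h.proper_of_free (hfree x hx) hB₀c
  -- avoid the rest of the orbit of `x`
  set R : Set Y := (fun t => φ t x) '' (Icc (-M) M ∩ {t | ε ≤ |t|}) with hR
  have hRc : IsCompact R := (isCompact_Icc.inter_right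
    (isClosed_le continuous_const continuous_abs)).image (h.orbit_cont x)
  have hxR : x ∉ R := by
    rintro ⟨t, ⟨-, ht⟩, hte⟩
    have := hfree x hx t hte
    rw [this] at ht
    simp only [mem_ofPred_eq, abs_zero] at ht
    linarith
  obtain ⟨B, hBn, hBs, hBc⟩ := LocallyCompactSpace.local_compact_nhds x (B₀ ∩ Rᶜ)
    (inter_mem hB₀n (hRc.isClosed.isOpen_compl.mem_nhds hxR))
  set A : Set Y := {z ∈ B | θ z = θ x} with hAdef
  have hAc : IsCompact A := hBc.inter_right (isClosed_eq hθ continuous_const)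
  have hBW : B ⊆ W := fun z hz => hB₀W (hBs hz).1
  have hAx : ∀ t, φ t x ∈ A → t = 0 := by
    intro t ht
    have h1 := hM t (hBs ht.1).1
    have h2 : |t| < ε := by
      by_contra hcon
      push Not at hcon
      exact (hBs ht.1).2 ⟨t, ⟨abs_le.1 h1, hcon⟩, rfl⟩
    have hxW : x ∈ W := mem_of_mem_nhds hW
    rcases le_total 0 t with h0 | h0
    · rw [abs_of_nonneg h0] at h2
      have h3 := (hmono x hxW t ⟨h0, h2.le⟩).1
      rw [ht.2] at h3
      nlinarith
    · rw [abs_of_nonpos h0] at h2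
      have h3 := (hmono x hxW (-t) ⟨by linarith, h2.le⟩).2
      rw [neg_neg, ht.2] at h3
      nlinarith
  -- crossing
  have hcross : ∀ z ∈ A, z ∈ interior B → ∀ δ > 0, ∀ᶠ w in 𝓝 z, ∃ t, |t| < δ ∧ φ t w ∈ A := by
    intro z hzA hzB δ hδ
    have hev : ∀ᶠ p : ℝ × Y in 𝓝 ((0 : ℝ), z), φ p.1 p.2 ∈ interior B := by
      have : φ ((0 : ℝ), z).1 ((0 : ℝ), z).2 ∈ interior B := by
        simp only [h.zero]
        exact hzB
      exact (h.cont.tendsto ((0 : ℝ), z)).eventually (isOpen_interior.mem_nhds this)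
    rw [nhds_prod_eq, Filter.eventually_prod_iff] at hev
    obtain ⟨pa, ha, pb, hb, hab⟩ := hev
    obtain ⟨ε₁, hε₁, hεa⟩ := Metric.eventually_nhds_iff.1 ha
    set τ := min (ε₁ / 2) (min ε (δ / 2)) with hτ
    have hτ0 : 0 < τ := by positivity
    have hτ1 : τ ≤ ε₁ / 2 := min_le_left _ _
    have hτ2 : τ ≤ ε := (min_le_right _ _).trans (min_le_left _ _)
    have hτ3 : τ ≤ δ / 2 := (min_le_right _ _).trans (min_le_right _ _)
    have hmz := hmono z (hBW hzA.1) τ ⟨hτ0.le, hτ2⟩
    have hcτ : 0 < c * τ := mul_pos hc hτ0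
    have e1 : ∀ᶠ w in 𝓝 z, θ x < θ (φ τ w) :=
      ((hθ.comp (h.time_cont τ)).tendsto z).eventually (lt_mem_nhds (by
        simp only [Function.comp]
        rw [← hzA.2]
        linarith [hmz.1]))
    have e2 : ∀ᶠ w in 𝓝 z, θ (φ (-τ) w) < θ x :=
      ((hθ.comp (h.time_cont (-τ))).tendsto z).eventually (gt_mem_nhds (by
        simp only [Function.comp]
        rw [← hzA.2]
        linarith [hmz.2]))
    filter_upwards [e1, e2, hb] with w hw1 hw2 hwb
    have hcont : ContinuousOn (fun t => θ (φ t w)) (Icc (-τ) τ) :=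
      (hθ.comp (h.orbit_cont w)).continuousOn
    obtain ⟨t, ht, hte⟩ := intermediate_value_Icc (by linarith : -τ ≤ τ) hcont ⟨hw2.le, hw1.le⟩
    have habs : |t| ≤ τ := abs_le.2 ht
    refine ⟨t, by linarith, ?_, hte⟩
    have : pa t := hεa (by rw [Real.dist_eq, sub_zero]; linarith)
    exact interior_subset (hab this hwb)
  have hxA : x ∈ A := ⟨mem_of_mem_nhds hBn, rfl⟩
  have hxB : x ∈ interior B := mem_interior_iff_mem_nhds.2 hBn
  -- the open set
  have hbdc : IsCompact (A \ interior B) := hAc.diff isOpen_interior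
  have hbd : f x ∉ f '' (A \ interior B) := by
    rintro ⟨w, ⟨hw1, hw2⟩, hw3⟩
    obtain ⟨t, rfl⟩ := (h.fibre x w).1 hw3.symm
    rw [hAx t hw1, h.zero] at hw2
    exact hw2 hxB
  obtain ⟨O, hO, hOo, hxO⟩ := mem_nhds_iff.1 (hcross x hxA hxB 1 one_pos)
  set U : Set N := (f '' (A \ interior B))ᶜ ∩ f '' O with hU
  have hUo : IsOpen U := ((hbdc.image h.fcont).isClosed.isOpen_compl).inter (h.fopen _ hOo)
  have hxU : f x ∈ U := ⟨hbd, x, hxO, rfl⟩
  have hint : ∀ w, f w ∈ U → w ∈ A → w ∈ interior B := by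
    intro w hw hwA
    by_contra hcon
    exact hw.1 ⟨w, ⟨hwA, hcon⟩, rfl⟩
  -- the first passage
  have hfirst : ∀ m ∈ K ∩ U, ∃ z ∈ A, f z = m ∧ ∀ t, φ t z ∈ A → 0 ≤ t := by
    rintro m ⟨hmK, hmU⟩
    obtain ⟨w, hwO, rfl⟩ := hmU.2
    obtain ⟨t₀, -, ht₀⟩ := hO hwO
    obtain ⟨M', hM'⟩ := h.proper_of_free (hfree w hmK) hAc
    set T : Set ℝ := {t | φ t w ∈ A} with hT
    have hTc : IsClosed T := hAc.isClosed.preimage (h.orbit_cont w)
    have hTb : BddBelow T := ⟨-M', fun t ht => (abs_le.1 (hM' t ht)).1⟩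
    have hTn : T.Nonempty := ⟨t₀, ht₀⟩
    have hmin := hTc.csInf_mem hTn hTb
    refine ⟨φ (sInf T) w, hmin, h.f_flow _ _, ?_⟩
    intro t ht
    rw [← h.add] at ht
    have := csInf_le hTb ht
    linarith
  have : Nonempty Y := ⟨x⟩
  choose! z hzA hzf hzt using hfirst
  refine ⟨U, z, A, hUo, hxU, hzA, hzf, hzt, ?_, ?_⟩
  · intro m hm δ hδ
    exact hcross (z m) (hzA m hm) (hint _ (by rw [hzf m hm]; exact hm.2) (hzA m hm)) δ hδ
  · intro m₀ hm₀
    rw [ContinuousWithinAt]
    apply hAc.tendsto_nhds_of_unique_mapClusterPt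
    · filter_upwards [self_mem_nhdsWithin] with m hm using hzA m hm
    · intro z' hz'A hz'
      -- the limit lies on the same orbit
      have hfz' : f z' = m₀ := by
        have h1 : MapClusterPt (f z') (𝓝[K ∩ U] m₀) (f ∘ z) :=
          hz'.continuousAt_comp h.fcont.continuousAt
        have h2 : Tendsto (f ∘ z) (𝓝[K ∩ U] m₀) (𝓝 m₀) := by
          have : Tendsto (id : N → N) (𝓝[K ∩ U] m₀) (𝓝 m₀) := tendsto_id.mono_left nhdsWithin_le_nhds
          refine this.congr' ?_
          filter_upwards [self_mem_nhdsWithin] with m hm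
          exact (hzf m hm).symm
        have h3 : ClusterPt (f z') (𝓝 m₀) := ClusterPt.mono h1 h2
        exact eq_of_nhds_neBot h3
      obtain ⟨s, hs⟩ := (h.fibre (z m₀) z').1 (by rw [hzf m₀ hm₀, hfz'])
      have hs0 : 0 ≤ s := hzt m₀ hm₀ s (by rw [hs]; exact hz'A)
      rcases hs0.eq_or_lt with h0 | h0
      · rw [← hs, ← h0, h.zero]
      · exfalso
        have e1 := hcross (z m₀) (hzA m₀ hm₀)
          (hint _ (by rw [hzf m₀ hm₀]; exact hm₀.2) (hzA m₀ hm₀)) s h0
        have e2 : Tendsto (φ (-s)) (𝓝 z') (𝓝 (z m₀)) := by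
          have := (h.time_cont (-s)).tendsto (φ s (z m₀))
          rwa [h.neg_cancel, hs] at this
        have e3 := e2.eventually e1
        have e4 := (hz'.frequently e3).and_eventually self_mem_nhdsWithin
        obtain ⟨m, ⟨t, ht, htA⟩, hm⟩ := e4.exists
        rw [← h.add] at htA
        have := hzt m hm _ htA
        rw [abs_lt] at ht
        linarith [ht.2]

/-- upper semicontinuity of the time between two first passages -/
theorem TFlow.first_upper (h : TFlow φ f) {K U U' : Set N} {z z' : N → Y} {A A' : Set Y}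
    (hz : IsFirst φ f K U z A) (hz' : IsFirst φ f K U' z' A') {m₀ : N} (hm : m₀ ∈ K ∩ U)
    (hm' : m₀ ∈ K ∩ U') {t₀ : ℝ} (ht₀ : z' m₀ = φ t₀ (z m₀)) {ε : ℝ} (hε : 0 < ε) :
    ∀ᶠ m in 𝓝[K ∩ U ∩ U'] m₀, ∀ t, z' m = φ t (z m) → t < t₀ + ε := by
  have e1 := hz'.cross m₀ hm' ε hε
  have e2 : Tendsto (fun m => φ t₀ (z m)) (𝓝[K ∩ U ∩ U'] m₀) (𝓝 (z' m₀)) := by
    rw [ht₀]
    have := (hz.cont m₀ hm).mono (s := K ∩ U ∩ U') inter_subset_left
    exact ((h.time_cont t₀).tendsto _).comp this.tendsto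
  filter_upwards [e2.eventually e1, self_mem_nhdsWithin] with m hm1 hm2 t ht
  obtain ⟨s, hs, hsA⟩ := hm1
  have e3 : φ s (φ t₀ (z m)) = φ (s + t₀ - t) (z' m) := by
    rw [ht, ← h.add, ← h.add]
    congr 1
    ring
  rw [e3] at hsA
  have := hz'.first m ⟨hm2.1.1, hm2.2⟩ _ hsA
  rw [abs_lt] at hs
  linarith [hs.2]

theorem TFlow.first_diff (h : TFlow φ f) {K U U' : Set N} {z z' : N → Y} {A A' : Set Y}
    (hz : IsFirst φ f K U z A) (hz' : IsFirst φ f K U' z' A') {m₀ : N} (hm : m₀ ∈ K ∩ U)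
    (hm' : m₀ ∈ K ∩ U') {t₀ : ℝ} (ht₀ : z' m₀ = φ t₀ (z m₀)) {ε : ℝ} (hε : 0 < ε) :
    ∀ᶠ m in 𝓝[K ∩ U ∩ U'] m₀, ∀ t, z' m = φ t (z m) → |t - t₀| < ε := by
  have e1 := h.first_upper hz hz' hm hm' ht₀ hε
  have e2 := h.first_upper hz' hz hm' hm (t₀ := -t₀) (by rw [ht₀, h.neg_cancel]) hε
  have e3 : K ∩ U' ∩ U = K ∩ U ∩ U' := by
    ext m
    simp only [mem_inter_iff]
    tauto
  rw [e3] at e2
  filter_upwards [e1, e2] with m h1 h2 t ht
  have a1 := h1 t ht
  have a2 := h2 (-t) (by rw [ht, h.neg_cancel])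
  rw [abs_lt]
  constructor <;> linarith

/-- Over a compact set of free orbits there is a continuous section. -/
theorem TFlow.exists_section [Nonempty Y] [LocallyCompactSpace Y] [T2Space N] [NormalSpace N]
    (h : TFlow φ f) {K : Set N} (hK : IsCompact K) (hr : K ⊆ range f)
    (hfree : ∀ y, f y ∈ K → ∀ t, φ t y = y → t = 0) :
    ∃ σ : N → Y, ContinuousOn σ K ∧ ∀ m ∈ K, f (σ m) = m := by
  classical
  choose! p hp using fun m (hm : m ∈ K) => hr hm
  have hbox : ∀ m ∈ K, ∃ (U : Set N) (z : N → Y) (A : Set Y), IsOpen U ∧ m ∈ U ∧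
      IsFirst φ f K U z A := by
    intro m hm
    have := h.exists_first hfree (x := p m) (by rw [hp m hm]; exact hm)
    rwa [hp m hm] at this
  choose! U z A hUo hmU hz using hbox
  obtain ⟨t, ht⟩ := hK.elim_nhds_subcover' (fun m _ => U m) (fun m hm => (hUo m hm).mem_nhds (hmU m hm))
  let V : t → Set N := fun i => U i.1
  have hVo : ∀ i, IsOpen (V i) := fun i => hUo _ i.1.2
  have hzV : ∀ i : t, IsFirst φ f K (V i) (z i.1) (A i.1) := fun i => hz _ i.1.2
  have hcov : K ⊆ ⋃ i, V i := by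
    intro m hm
    obtain ⟨i, hi⟩ := mem_iUnion.1 (ht hm)
    obtain ⟨hi1, hi2⟩ := mem_iUnion.1 hi
    exact mem_iUnion.2 ⟨⟨i, hi1⟩, hi2⟩
  obtain ⟨ρ, hρ⟩ := PartitionOfUnity.exists_isSubordinate_of_locallyFinite hK.isClosed V hVo
    (locallyFinite_of_finite V) hcov
  have hsum : ∀ m ∈ K, ∑ i, ρ i m = 1 := by
    intro m hm
    rw [← finsum_eq_sum_of_fintype]
    exact ρ.sum_eq_one hm
  have hρ0 : ∀ i m, m ∉ V i → ρ i m = 0 := by
    intro i m hm
    by_contra hne
    exact hm (hρ i (subset_tsupport _ hne))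
  have hρc : ∀ i (m : N), m ∉ tsupport (ρ i) → ρ i m = 0 := by
    intro i m hm
    by_contra hne
    exact hm (subset_tsupport _ hne)
  have huniq : ∀ y, f y ∈ K → ∀ a b, φ a y = φ b y → a = b := fun y hy a b hab =>
    h.inj_of_free (hfree y hy) hab
  -- the time between two first passages
  have hex : ∀ (i j : t) (m : N), m ∈ K → m ∈ V i → m ∈ V j → ∃ r, z j.1 m = φ r (z i.1 m) := by
    intro i j m hm hi hj
    obtain ⟨r, hr⟩ := (h.fibre (z i.1 m) (z j.1 m)).1
      (by rw [(hzV i).sec m ⟨hm, hi⟩, (hzV j).sec m ⟨hm, hj⟩])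
    exact ⟨r, hr.symm⟩
  let tt : t → t → N → ℝ := fun i j m => if hh : ∃ r, z j.1 m = φ r (z i.1 m) then hh.choose else 0
  have htt : ∀ (i j : t) (m : N), m ∈ K → m ∈ V i → m ∈ V j → z j.1 m = φ (tt i j m) (z i.1 m) := by
    intro i j m hm hi hj
    have hh := hex i j m hm hi hj
    simp only [tt, hh, dif_pos]
    exact hh.choose_spec
  let τ : t → N → ℝ := fun i m => ∑ j, ρ j m * tt i j m
  let SS : t → N → Y := fun i m => φ (τ i m) (z i.1 m)
  -- independence of `i`
  have hSS : ∀ (i k : t) (m : N), m ∈ K → m ∈ V i → m ∈ V k → SS i m = SS k m := by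
    intro i k m hm hi hk
    have e : ∀ j, ρ j m * tt i j m = ρ j m * tt k j m + ρ j m * tt i k m := by
      intro j
      by_cases hj : m ∈ V j
      · have e1 := htt i j m hm hi hj
        have e2 := htt k j m hm hk hj
        have e3 := htt i k m hm hi hk
        rw [e3, ← h.add, e1] at e2
        have := huniq _ (by rw [(hzV i).sec m ⟨hm, hi⟩]; exact hm) _ _ e2
        rw [this]
        ring
      · rw [hρ0 j _ hj]
        ring
    have e' : τ i m = τ k m + tt i k m := by
      simp only [τ]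
      rw [Finset.sum_congr rfl (fun j _ => e j), Finset.sum_add_distrib, ← Finset.sum_mul,
        hsum _ hm, one_mul]
    simp only [SS]
    rw [e', h.add, ← htt i k m hm hi hk]
  have hτc : ∀ i, ContinuousOn (τ i) (K ∩ V i) := by
    intro i
    apply continuousOn_finsetSum
    intro j _ m₀ hm₀
    by_cases hj : m₀ ∈ tsupport (ρ j)
    · have hjV : m₀ ∈ V j := hρ j hj
      apply ContinuousWithinAt.mul
      · exact (ρ j).continuous.continuousWithinAt
      · have hA : 𝓝[K ∩ V i] m₀ = 𝓝[K ∩ V i ∩ V j] m₀ :=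
          (nhdsWithin_inter_of_mem' (mem_nhdsWithin_of_mem_nhds ((hVo j).mem_nhds hjV))).symm
        rw [ContinuousWithinAt, hA, Metric.tendsto_nhds]
        intro ε hε
        have := h.first_diff (hzV i) (hzV j) hm₀ ⟨hm₀.1, hjV⟩ (htt i j m₀ hm₀.1 hm₀.2 hjV) hε
        filter_upwards [this, self_mem_nhdsWithin] with m hm hmA
        rw [Real.dist_eq]
        exact hm _ (htt i j m hmA.1.1 hmA.1.2 hmA.2)
    · have hz0 : ∀ᶠ m in 𝓝[K ∩ V i] m₀, ρ j m * tt i j m = 0 := by
        apply mem_nhdsWithin_of_mem_nhds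
        filter_upwards [(isClosed_tsupport (ρ j)).isOpen_compl.mem_nhds hj] with m hm
        rw [hρc j m hm, zero_mul]
      have h0 : ρ j m₀ * tt i j m₀ = 0 := by rw [hρc j m₀ hj, zero_mul]
      rw [ContinuousWithinAt, h0]
      exact tendsto_const_nhds.congr' (hz0.mono fun _ hy => hy.symm)
  have hSc : ∀ i, ContinuousOn (SS i) (K ∩ V i) := fun i =>
    h.cont.comp_continuousOn ((hτc i).prodMk (hzV i).cont)
  by_cases hKe : K.Nonempty
  swap
  · rw [not_nonempty_iff_eq_empty.1 hKe]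
    exact ⟨fun _ => Classical.arbitrary Y, continuousOn_empty _, by simp⟩
  have hne : Nonempty t := by
    obtain ⟨m, hm⟩ := hKe
    obtain ⟨i, -⟩ := mem_iUnion.1 (hcov hm)
    exact ⟨i⟩
  choose! ι hι using fun m (hm : m ∈ K) => mem_iUnion.1 (hcov hm)
  refine ⟨fun m => SS (ι m) m, ?_, ?_⟩
  · intro m₀ hm₀
    have hi := hι m₀ hm₀
    have hA : 𝓝[K] m₀ = 𝓝[K ∩ V (ι m₀)] m₀ :=
      (nhdsWithin_inter_of_mem' (mem_nhdsWithin_of_mem_nhds ((hVo _).mem_nhds hi))).symm
    rw [ContinuousWithinAt, hA]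
    refine (hSc (ι m₀) m₀ ⟨hm₀, hi⟩).tendsto.congr' ?_
    filter_upwards [self_mem_nhdsWithin] with m hm
    exact hSS _ _ m hm.1 hm.2 (hι m hm.1)
  · intro m hm
    simp only [SS]
    rw [h.f_flow, (hzV (ι m)).sec m ⟨hm, hι m hm⟩]

end Pool.Agent.U891.FQ
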