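import Pool.Agent.U891.FQ.BData
import Pool.Agent.U891.FQ.Section
import Pool.Agent.H672R3.FQ.Stokes
import Pool.Agent.H790.FQ.Torus

set_option autoImplicit false
open Set Topology Filter

/-!
A continuous flow on `X` with Hausdorff orbit space `N`; a map `e : T⁵ → N` of the five-dimensional
torus such that the classes `x₀x₁`, `x₂x₃`, `x₂x₄` of the torus become trivial on `X`, compatibly.
This is impossible.
-/

namespace Pool.Agent.U891.FQ

open Pool.Agent.H289R3.FQ (T1 ee TaskTorus)

theorem no_flow {X F : Type*} [MetricSpace X] [LocallyCompactSpace X] [TopologicalSpace F]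
    [T2Space F] [NormalSpace F] {φ : ℝ → X → X} {f : X → F} (h : TFlow φ f)
    {e : (Fin 5 → ℝ) → F} (he : Continuous e)
    (hint : ∀ (y : Fin 5 → ℝ) (k : Fin 5 → ℤ), e (fun j => y j + k j) = e y)
    (hsurj : ∀ y, ∃ x, f x = e y)
    (hD : ∀ L : Set X, IsCompact L → ∃ (O : Set X) (D : Fin 5 → Fin 5 → X × (Fin 5 → ℝ) → T1),
      IsOpen O ∧ L ⊆ O ∧ ∀ a b : Fin 5, (a, b) = (0, 1) ∨ (a, b) = (2, 4) ∨ (a, b) = (2, 3) →
        ContinuousOn (D a b) {p | p.1 ∈ O ∧ f p.1 = e p.2} ∧
        ∀ x y, x ∈ O → f x = e y → ∀ j, D a b (x, y + ee j) =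
          D a b (x, y) + (((if j = b then y a else 0 : ℝ)) : T1)) : False := by
  classical
  have hee : ∀ y j, e (y + ee j) = e y := by
    intro y j
    have : y + ee j = fun i => y i + ((Pi.single j 1 : Fin 5 → ℤ) i : ℝ) := by
      funext i
      simp only [Pi.add_apply, ee]
      by_cases hij : i = j
      · subst hij; simp
      · simp [hij]
    rw [this, hint]
  have : Nonempty X := ⟨(hsurj 0).choose⟩
  -- the torus and its bad part
  have hTc : IsCompact (range e) := by
    have : range e = e '' Icc 0 1 := by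
      apply Subset.antisymm
      · rintro _ ⟨y, rfl⟩
        refine ⟨fun j => Int.fract (y j), ⟨fun j => Int.fract_nonneg _, fun j => (Int.fract_lt_one _).le⟩, ?_⟩
        rw [← hint (fun j => Int.fract (y j)) (fun j => ⌊y j⌋)]
        congr 1
        funext j
        exact Int.fract_add_floor (y j)
      · rintro _ ⟨y, -, rfl⟩
        exact ⟨y, rfl⟩
    rw [this]
    exact isCompact_Icc.image he
  let K : Set F := {m | m ∈ range e ∧ ¬ IsCompact (f ⁻¹' {m})}
  have hKc : IsCompact K := by
    apply hTc.of_isClosed_subset _ (fun m hm => hm.1)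
    rw [← isOpen_compl_iff, isOpen_iff_mem_nhds]
    intro m hm
    by_cases hmT : m ∈ range e
    · have hmc : IsCompact (f ⁻¹' {m}) := by
        by_contra hcon
        exact hm ⟨hmT, hcon⟩
      obtain ⟨y, rfl⟩ := hmT
      obtain ⟨x, hx⟩ := hsurj y
      rw [← hx] at hmc ⊢
      filter_upwards [h.compact_nhds hmc] with n hn hn'
      exact hn'.2 hn
    · filter_upwards [hTc.isClosed.isOpen_compl.mem_nhds hmT] with n hn hn'
      exact hn hn'.1
  obtain ⟨σ, hσc, hσ⟩ := h.exists_section hKc (by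
    rintro m ⟨⟨y, rfl⟩, -⟩
    exact hsurj y) (by
    intro x hx t ht
    by_contra hne
    exact hx.2 (h.compact_of_periodic hne ht))
  obtain ⟨O₁, D₁, -, hKO₁, hD₁⟩ := hD _ (hKc.image_of_continuousOn hσc)
  obtain ⟨hD01, hDt01⟩ := hD₁ 0 1 (Or.inl rfl)
  -- the bad set in the universal cover of the torus
  let C : Set (Fin 5 → ℝ) := {y | e y ∈ K}
  have hCint : ∀ (y : Fin 5 → ℝ) (k : Fin 5 → ℤ), y ∈ C ↔ (fun j => y j + k j) ∈ C := by
    intro y k
    simp only [C, mem_ofPred_eq, hint]
  have hfσ : ∀ y ∈ C, f (σ (e y)) = e y := fun y hy => hσ _ hy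
  have hσO : ∀ y ∈ C, σ (e y) ∈ O₁ := fun y hy => hKO₁ ⟨_, hy, rfl⟩
  refine Pool.Agent.H790.FQ.taskTorus Pool.Agent.H672R3.FQ.taskStokes C
    (hKc.isClosed.preimage he) ?_ (fun y => D₁ 0 1 (σ (e y), y)) ?_ ?_ ?_
  · intro y j
    simp only [C, mem_ofPred_eq, hee]
  · have hmaps : ContinuousOn (fun y : Fin 5 → ℝ => (σ (e y), y)) C :=
      (hσc.comp he.continuousOn (fun y hy => hy)).prodMk continuousOn_id
    exact hD01.comp hmaps (fun y hy => ⟨hσO y hy, hfσ y hy⟩)
  · intro y hy j
    simp only [hee]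
    rw [hDt01 _ _ (hσO y hy) (hfσ y hy) j]
    split_ifs <;> simp
  · intro δ hδ
    let A : Set (Fin 5 → ℝ) := {y | ∀ c ∈ C, δ ≤ dist y c}
    have hAcl : IsClosed A := by
      have : A = ⋂ c ∈ C, {y | δ ≤ dist y c} := by
        ext y
        simp [A]
      rw [this]
      exact isClosed_biInter fun c _ => isClosed_le continuous_const (by fun_prop)
    have hAc : ∀ y ∈ A, IsCompact (f ⁻¹' {e y}) := by
      intro y hy
      by_contra hcon
      have hyC : y ∈ C := ⟨⟨y, rfl⟩, hcon⟩
      have := hy y hyC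
      rw [dist_self] at this
      linarith
    have hTA : IsCompact (e '' A) := by
      have : e '' A = e '' (A ∩ Icc 0 1) := by
        apply Subset.antisymm
        · rintro _ ⟨y, hy, rfl⟩
          refine ⟨fun j => Int.fract (y j), ⟨?_, fun j => Int.fract_nonneg _,
            fun j => (Int.fract_lt_one _).le⟩, ?_⟩
          · intro c hc
            have h1 := hy (fun j => c j + (⌊y j⌋ : ℤ)) ((hCint c _).1 hc)
            have h2 : dist (fun j => Int.fract (y j)) c =
                dist y (fun j => c j + (⌊y j⌋ : ℤ)) := by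
              rw [dist_eq_norm, dist_eq_norm]
              congr 1
              funext j
              simp only [Pi.sub_apply]
              have := Int.fract_add_floor (y j)
              linarith
            rw [h2]
            exact h1
          · rw [← hint (fun j => Int.fract (y j)) (fun j => ⌊y j⌋)]
            congr 1
            funext j
            exact Int.fract_add_floor (y j)
        · exact image_mono inter_subset_left
      rw [this]
      exact (isCompact_Icc.inter_left hAcl).image he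
    obtain ⟨L, hL, hLA⟩ : ∃ L : Set X, IsCompact L ∧ ∀ m ∈ e '' A, f ⁻¹' {m} ⊆ L := by
      refine hTA.induction_on (p := fun s => ∃ L : Set X, IsCompact L ∧
        ∀ m ∈ s, f ⁻¹' {m} ⊆ L) ?_ ?_ ?_ ?_
      · exact ⟨∅, isCompact_empty, by simp⟩
      · rintro s t hst ⟨L, hL, hL'⟩
        exact ⟨L, hL, fun m hm => hL' m (hst hm)⟩
      · rintro s t ⟨L, hL, hL'⟩ ⟨L2, hL2, hL2'⟩
        refine ⟨L ∪ L2, hL.union hL2, ?_⟩
        rintro m (hm | hm)
        · exact (hL' m hm).trans subset_union_left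
        · exact (hL2' m hm).trans subset_union_right
      · rintro _ ⟨y, hy, rfl⟩
        obtain ⟨x, hx⟩ := hsurj y
        have hc := hAc y hy
        rw [← hx] at hc ⊢
        obtain ⟨L, hL, -, hev⟩ := h.stable hc isOpen_univ (subset_univ _)
        exact ⟨_, mem_nhdsWithin_of_mem_nhds hev, L, hL, fun m hm => hm⟩
    obtain ⟨O₂, D₂, hO₂, hLO₂, hD₂⟩ := hD L hL
    obtain ⟨hc24, ht24⟩ := hD₂ 2 4 (Or.inr (Or.inl rfl))
    obtain ⟨hc23, ht23⟩ := hD₂ 2 3 (Or.inr (Or.inr rfl))
    exact bdata h he hee hsurj hO₂ (D₁ := D₂ 2 4) (D₂ := D₂ 2 3) hc24 hc23 ht24 ht23 (K := A)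
      (fun y hy => ⟨hAc y hy, (hLA _ ⟨y, hy, rfl⟩).trans hLO₂⟩)

end Pool.Agent.U891.FQ
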