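import Pool.Agent.U891.FQ.Flow

set_option autoImplicit false
open Set Topology Filter
open scoped unitInterval

/-!
Winding numbers of circle valued functions along periodic orbits. This follows
`Pool.Agent.H289R3.FQ.Slope`, but does not assume that nearby orbits have nearby periods.
-/

namespace Pool.Agent.U891.FQ

open Pool.Agent.H289R3.FQ (T1 sm coe_sm coe_eq_zero sm_cont lift_unique Null val sSup_add_const
  null_nhds IsVar comb comb_cont comb_var PB)

variable {Y N : Type*} [TopologicalSpace Y] [TopologicalSpace N] {φ : ℝ → Y → Y} {f : Y → N}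

theorem TFlow.exists_var (h : TFlow φ f) {D : Y → T1} (hD : Continuous D) :
    ∃ L : Y → ℝ → ℝ, IsVar φ D L := by
  let H : C(I × (Y × ℝ), T1) := ⟨fun p => D (φ (p.1 * p.2.2) p.2.1) - D p.2.1, by
    apply Continuous.sub
    · exact hD.comp (h.cont.comp
        (by fun_prop : Continuous fun p : I × (Y × ℝ) => (((p.1 : ℝ) * p.2.2, p.2.1) : ℝ × Y)))
    · exact hD.comp (by fun_prop)⟩
  have H0 : ∀ a, H (0, a) = (((0 : C(Y × ℝ, ℝ)) a : ℝ) : T1) := by
    intro a
    simp [H, h.zero]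
  let Lf := (AddCircle.isCoveringMap_coe (1 : ℝ)).liftHomotopy H 0 H0
  have hl : ∀ x, ((Lf x : ℝ) : T1) = H x := fun x =>
    congrFun ((AddCircle.isCoveringMap_coe (1 : ℝ)).liftHomotopy_lifts H 0 H0) x
  have h0 : ∀ a, Lf (0, a) = 0 := fun a =>
    (AddCircle.isCoveringMap_coe (1 : ℝ)).liftHomotopy_zero H 0 H0 a
  refine ⟨fun y t => Lf (1, (y, t)), ?_, ?_, ?_⟩
  · fun_prop
  · intro y
    have := lift_unique (K := (univ : Set I)) isPreconnected_univ (l := fun _ => (0 : ℝ))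
      (l' := fun s => Lf (s, (y, 0))) continuousOn_const (by fun_prop) (by
        intro s _
        rw [hl]
        simp [H, h.zero]) (mem_univ 0) 1 (mem_univ _)
    simp only [h0] at this
    simpa using this
  · intro y t
    rw [hl]
    simp [H]

theorem var_add {D : Y → T1} {L : Y → ℝ → ℝ} (hL : IsVar φ D L) (h : TFlow φ f) (y : Y)
    (s t : ℝ) : L y (s + t) = L y t + L (φ t y) s := by
  have := lift_unique (K := (univ : Set ℝ)) isPreconnected_univ
    (l := fun s => L y (s + t)) (l' := fun s => L y t + L (φ t y) s)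
    (Continuous.continuousOn (hL.cont.comp (by fun_prop : Continuous fun s : ℝ => (y, s + t))))
    (Continuous.continuousOn (continuous_const.add
      (hL.cont.comp (by fun_prop : Continuous fun s : ℝ => (φ t y, s))))) (by
      intro s _
      rw [AddCircle.coe_add, hL.coe, hL.coe, hL.coe, ← h.add]
      abel) (mem_univ 0) s (mem_univ _)
  simp only [zero_add, hL.zero, add_zero, sub_self] at this
  exact this.symm

theorem var_orbit_eq {D : Y → T1} {L : Y → ℝ → ℝ} (hL : IsVar φ D L) (h : TFlow φ f) {y : Y}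
    {l : Y → ℝ} (hl : ContinuousOn l (f ⁻¹' {f y})) (hlD : ∀ z ∈ f ⁻¹' {f y}, ((l z : ℝ) : T1) = D z)
    (t : ℝ) : L y t = l (φ t y) - l y := by
  have hmem : ∀ s, φ s y ∈ f ⁻¹' {f y} := fun s => h.f_flow s y
  have := lift_unique (K := (univ : Set ℝ)) isPreconnected_univ
    (l := fun s => l (φ s y) - l y) (l' := fun s => L y s)
    ((hl.comp (h.orbit_cont y).continuousOn (fun s _ => hmem s)).sub continuousOn_const)
    (Continuous.continuousOn (hL.cont.comp (by fun_prop : Continuous fun s : ℝ => (y, s)))) (by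
      intro s _
      have e0 : ((l y : ℝ) : T1) = D y := hlD y rfl
      rw [AddCircle.coe_sub, hlD _ (hmem s), e0, hL.coe]) (mem_univ 0) t (mem_univ _)
  simp only [hL.zero, h.zero, sub_self, add_zero] at this
  exact this

theorem var_zero_of_null {D : Y → T1} {L : Y → ℝ → ℝ} (hL : IsVar φ D L) (h : TFlow φ f) {y : Y}
    (hN : Null f D (f y)) {T : ℝ} (hT : φ T y = y) : L y T = 0 := by
  obtain ⟨l, hl, hlD⟩ := hN
  rw [var_orbit_eq hL h hl hlD, hT, sub_self]

theorem var_null_of_zero [T2Space Y] {D : Y → T1} {L : Y → ℝ → ℝ} (hL : IsVar φ D L)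
    (h : TFlow φ f) {y : Y} {T : ℝ} (hT0 : 0 < T) (hT : φ T y = y) (hLT : L y T = 0) :
    Null f D (f y) := by
  classical
  have hper : Function.Periodic (L y) T := by
    intro s
    rw [var_add hL h, hLT, hT, zero_add]
  have hLc : Continuous (L y) := hL.cont.comp (by fun_prop : Continuous fun s : ℝ => (y, s))
  obtain ⟨B, hB⟩ : ∃ B, ∀ s, |L y s| ≤ B := by
    obtain ⟨B, hB⟩ := isCompact_Icc.exists_bound_of_continuousOn (s := Icc 0 T) hLc.continuousOn
    refine ⟨B, fun s => ?_⟩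
    obtain ⟨s', hs', hs''⟩ := hper.exists_mem_Ico₀ hT0 s
    rw [hs'']
    exact hB s' ⟨hs'.1, hs'.2.le⟩
  have hP : ∀ P, φ P y = y → L y P = 0 := by
    intro P hP
    have hn : ∀ n : ℕ, L y (n * P) = n * L y P := by
      intro n
      induction n with
      | zero => simp [hL.zero]
      | succ n ih =>
        have : ((n + 1 : ℕ) : ℝ) * P = n * P + P := by push_cast; ring
        rw [this, var_add hL h, hP, ih]
        push_cast
        ring
    by_contra hne
    obtain ⟨n, hn'⟩ := exists_nat_gt (B / |L y P|)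
    have h1 := hB (n * P)
    rw [hn, abs_mul, Nat.abs_cast] at h1
    rw [div_lt_iff₀ (abs_pos.2 hne)] at hn'
    linarith
  obtain ⟨c0, hc0⟩ : ∃ c0 : ℝ, ((c0 : ℝ) : T1) = D y := ⟨_, coe_sm (D y)⟩
  let tt : Y → ℝ := fun z => if hz : ∃ t, φ t y = z then hz.choose else 0
  have htt : ∀ z ∈ f ⁻¹' {f y}, φ (tt z) y = z := by
    intro z hz
    have hz' := (h.fibre y z).1 (Eq.symm hz)
    simp only [tt, hz', dif_pos]
    exact hz'.choose_spec
  have hLtt : ∀ t, L y (tt (φ t y)) = L y t := by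
    intro t
    have e := htt (φ t y) (h.f_flow t y)
    have e2 : φ (tt (φ t y) - t) y = y := by
      have : y = φ (-t) (φ t y) := by rw [← h.add, neg_add_cancel, h.zero]
      conv_rhs => rw [this]
      rw [← e, ← h.add]
      congr 1
      rw [e]
      ring
    have e3 := var_add hL h y t (tt (φ t y) - t)
    rw [e2, hP _ e2, zero_add] at e3
    rw [← e3]
    congr 1
    ring
  refine ⟨fun z => c0 + L y (tt z), ?_, ?_⟩
  · rw [continuousOn_iff_isClosed]
    intro A hA
    have hcont : Continuous (fun t => c0 + L y t) := continuous_const.add hLc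
    refine ⟨(fun t => φ t y) '' (Icc 0 T ∩ (fun t => c0 + L y t) ⁻¹' A), ?_, ?_⟩
    · exact ((isCompact_Icc.inter_right (hA.preimage hcont)).image (h.orbit_cont y)).isClosed
    · ext z
      constructor
      · rintro ⟨hz1, hz2⟩
        refine ⟨?_, hz2⟩
        obtain ⟨t, rfl⟩ := (h.fibre y z).1 (Eq.symm hz2)
        have hz1' : c0 + L y t ∈ A := by
          have : c0 + L y (tt (φ t y)) ∈ A := hz1
          rwa [hLtt] at this
        have hper2 : Function.Periodic (fun t => (φ t y, L y t)) T := by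
          intro s
          simp only
          rw [h.add, hT, hper s]
        obtain ⟨s', hs', hs''⟩ := hper2.exists_mem_Ico₀ hT0 t
        simp only [Prod.mk.injEq] at hs''
        refine ⟨s', ⟨⟨hs'.1, hs'.2.le⟩, ?_⟩, hs''.1.symm⟩
        change c0 + L y s' ∈ A
        rw [← hs''.2]
        exact hz1'
      · rintro ⟨⟨t, ⟨-, ht⟩, rfl⟩, hz2⟩
        refine ⟨?_, hz2⟩
        change c0 + L y (tt (φ t y)) ∈ A
        rw [hLtt]
        exact ht
  · intro z hz
    rw [AddCircle.coe_add, hL.coe, htt z hz, hc0]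
    abel

/-- Having a non-zero winding number is an open condition on compact orbits. -/
theorem TFlow.notNull_nhds [T2Space Y] [LocallyCompactSpace Y] [T2Space N] (h : TFlow φ f)
    {D : Y → T1} (hD : Continuous D) {y0 : Y} (hc : IsCompact (f ⁻¹' {f y0}))
    (hN : ¬ Null f D (f y0)) : ∀ᶠ n in 𝓝 (f y0), ¬ Null f D n := by
  obtain ⟨L, hL⟩ := h.exists_var hD
  obtain ⟨T, hT0, hper⟩ := h.periodic hc
  set d := L y0 T with hd
  have hd0 : d ≠ 0 := fun h0 => hN (var_null_of_zero hL h hT0 hper h0)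
  obtain ⟨k, hk⟩ : ∃ k : ℤ, (k : ℝ) = d := by
    rw [← coe_eq_zero, hd, hL.coe, hper, sub_self]
  have hd1 : 1 ≤ |d| := by
    have hk0 : k ≠ 0 := by
      rintro rfl
      apply hd0
      rw [← hk]
      simp
    rw [← hk, ← Int.cast_abs]
    exact_mod_cast Int.one_le_abs hk0
  -- the variation over time `T` is constant on the orbit
  have hconst : ∀ z ∈ f ⁻¹' {f y0}, L z T = d := by
    intro z hz
    obtain ⟨t, rfl⟩ := (h.fibre y0 z).1 (Eq.symm hz)
    have e1 := var_add hL h y0 T t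
    have e2 := var_add hL h y0 t T
    rw [hper, add_comm t T] at e2
    linarith
  have hLT : Continuous (fun z => L z T) := hL.cont.comp (by fun_prop : Continuous fun z : Y => (z, T))
  have hO : IsOpen {z | |L z T - d| < 1 / 2} :=
    isOpen_lt (hLT.sub continuous_const).abs continuous_const
  obtain ⟨K, hK, hKO, hev⟩ := h.stable hc hO (by
    intro z hz
    simp only [mem_ofPred_eq]
    rw [hconst z hz, sub_self, abs_zero]
    norm_num)
  have hrange : ∀ᶠ n in 𝓝 (f y0), n ∈ range f := by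
    filter_upwards [(h.fopen univ isOpen_univ).mem_nhds ⟨y0, mem_univ _, rfl⟩] with n hn
    obtain ⟨z, -, hz⟩ := hn
    exact ⟨z, hz⟩
  filter_upwards [hev, h.compact_nhds hc, hrange] with n hn hnc hnr hnull
  obtain ⟨z, rfl⟩ := hnr
  obtain ⟨l, hl, hlD⟩ := hnull
  -- the lift is bounded
  obtain ⟨B, hB⟩ := hnc.exists_bound_of_continuousOn hl
  have hmem : ∀ t, φ t z ∈ f ⁻¹' {f z} := fun t => h.f_flow t z
  have hbd : ∀ t, |L z t| ≤ 2 * B := by
    intro t
    rw [var_orbit_eq hL h hl hlD]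
    have h1 := hB _ (hmem t)
    have h2 := hB z rfl
    rw [Real.norm_eq_abs] at h1 h2
    calc |l (φ t z) - l z| ≤ |l (φ t z)| + |l z| := abs_sub _ _
      _ ≤ 2 * B := by linarith
  have hlin : ∀ k : ℕ, |L z (k * T) - k * d| ≤ k * (1 / 2) := by
    intro k
    induction k with
    | zero => simp [hL.zero]
    | succ k ih =>
      have e : ((k + 1 : ℕ) : ℝ) * T = T + k * T := by push_cast; ring
      rw [e, var_add hL h]
      have h1 : |L (φ (k * T) z) T - d| < 1 / 2 := hKO (hn (hmem _))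
      have e2 : L z (k * T) + L (φ (k * T) z) T - ((k + 1 : ℕ) : ℝ) * d =
          (L z (k * T) - k * d) + (L (φ (k * T) z) T - d) := by push_cast; ring
      rw [e2]
      calc _ ≤ |L z (k * T) - k * d| + |L (φ (k * T) z) T - d| := abs_add_le _ _
        _ ≤ ((k + 1 : ℕ) : ℝ) * (1 / 2) := by push_cast; linarith
  obtain ⟨k, hk⟩ := exists_nat_gt (4 * B)
  have h1 := hlin k
  have h2 := hbd (k * T)
  have h3 : (k : ℝ) * |d| ≤ 2 * B + k * (1 / 2) := by
    have : (k : ℝ) * |d| = |(k : ℝ) * d| := by rw [abs_mul, Nat.abs_cast]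
    rw [this]
    calc |(k : ℝ) * d| = |L z (k * T) - (L z (k * T) - k * d)| := by congr 1; ring
      _ ≤ |L z (k * T)| + |L z (k * T) - k * d| := abs_sub _ _
      _ ≤ _ := by linarith
  have hk0 : (0 : ℝ) ≤ k := Nat.cast_nonneg k
  nlinarith

theorem TFlow.slope_exists [T2Space Y] [NormalSpace Y] [LocallyCompactSpace Y] [T2Space N]
    (h : TFlow φ f) {D₁ D₂ : Y → T1} (hD₁ : Continuous D₁)
    (hD₂ : Continuous D₂) {y0 : Y} (hc : IsCompact (f ⁻¹' {f y0})) (hN : ¬ Null f D₁ (f y0)) :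
    ∃ r : ℚ, ∀ᶠ n in 𝓝 (f y0), ¬ Null f D₁ n ∧ Null f (comb D₁ D₂ r) n := by
  obtain ⟨L₁, hL₁⟩ := h.exists_var hD₁
  obtain ⟨L₂, hL₂⟩ := h.exists_var hD₂
  obtain ⟨T0, hT0, hper⟩ := h.periodic hc
  have hint : ∀ {D : Y → T1} {L : Y → ℝ → ℝ}, IsVar φ D L → ∀ y T, φ T y = y →
      ∃ d : ℤ, (d : ℝ) = L y T := by
    intro D L hL y T hT
    rw [← coe_eq_zero, hL.coe, hT, sub_self]
  obtain ⟨d₁, hd₁⟩ := hint hL₁ y0 T0 hper
  obtain ⟨d₂, hd₂⟩ := hint hL₂ y0 T0 hper
  have hd₁0 : d₁ ≠ 0 := by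
    rintro rfl
    exact hN (var_null_of_zero hL₁ h hT0 hper (by rw [← hd₁]; simp))
  let r : ℚ := (d₂ : ℚ) / d₁
  have hr : (r.den : ℝ) * d₂ - (r.num : ℝ) * d₁ = 0 := by
    have h1 : (r.num : ℚ) / r.den = (d₂ : ℚ) / d₁ := Rat.num_div_den r
    have hd : (r.den : ℚ) ≠ 0 := by exact_mod_cast r.den_nz
    have hd1 : (d₁ : ℚ) ≠ 0 := by exact_mod_cast hd₁0
    rw [div_eq_div_iff hd hd1] at h1
    have : (r.den : ℚ) * d₂ - (r.num : ℚ) * d₁ = 0 := by linarith
    exact_mod_cast this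
  have hnull : Null f (comb D₁ D₂ r) (f y0) := by
    apply var_null_of_zero (comb_var hL₁ hL₂ r) h hT0 hper
    rw [← hd₁, ← hd₂]
    exact hr
  refine ⟨r, ?_⟩
  filter_upwards [h.notNull_nhds hD₁ hc hN, (h.val_cont (comb_cont hD₁ hD₂ r) hc hnull).2] with n h1 h2
  exact ⟨h1, h2⟩

theorem TFlow.slope_unique [T2Space Y] [LocallyCompactSpace Y] [T2Space N]
    (h : TFlow φ f) {D₁ D₂ : Y → T1} (hD₁ : Continuous D₁)
    (hD₂ : Continuous D₂) {y0 : Y} (hc : IsCompact (f ⁻¹' {f y0})) (hN : ¬ Null f D₁ (f y0))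
    {r r' : ℚ} (hr : Null f (comb D₁ D₂ r) (f y0)) (hr' : Null f (comb D₁ D₂ r') (f y0)) :
    r = r' := by
  obtain ⟨L₁, hL₁⟩ := h.exists_var hD₁
  obtain ⟨L₂, hL₂⟩ := h.exists_var hD₂
  obtain ⟨T0, hT0, hper⟩ := h.periodic hc
  have e1 : (r.den : ℝ) * L₂ y0 T0 - (r.num : ℝ) * L₁ y0 T0 = 0 :=
    var_zero_of_null (comb_var hL₁ hL₂ r) h hr hper
  have e2 : (r'.den : ℝ) * L₂ y0 T0 - (r'.num : ℝ) * L₁ y0 T0 = 0 :=
    var_zero_of_null (comb_var hL₁ hL₂ r') h hr' hper
  have hL0 : L₁ y0 T0 ≠ 0 := fun h0 => hN (var_null_of_zero hL₁ h hT0 hper h0)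
  have hd : (r.den : ℝ) ≠ 0 := by exact_mod_cast r.den_nz
  have hd' : (r'.den : ℝ) ≠ 0 := by exact_mod_cast r'.den_nz
  have hx : ((r : ℚ) : ℝ) = ((r' : ℚ) : ℝ) := by
    rw [Rat.cast_def, Rat.cast_def, div_eq_div_iff hd hd']
    have : ((r.num : ℝ) * r'.den - r'.num * r.den) * L₁ y0 T0 = 0 := by
      linear_combination (r.den : ℝ) * e2 - (r'.den : ℝ) * e1
    rcases mul_eq_zero.1 this with h1 | h1
    · linarith
    · exact absurd h1 hL0
  exact_mod_cast hx

end Pool.Agent.U891.FQ
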